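import Mathlib

set_option autoImplicit false
set_option linter.unusedSectionVars false

namespace Pool.Agent.H85.Mix

open Finset
open scoped Classical

variable {G : Type} [Group G] [Fintype G]

/-- One step of the lazy simple random walk on the Cayley graph of `G` with respect to `S`,
acting on the law of the position. -/
noncomputable def lazyStep (S : Finset G) (p : G → ℝ) : G → ℝ :=
  fun x => p x / 2 + (∑ s ∈ S, p (x * s⁻¹)) / (2 * (S.card : ℝ))

/-- The law at time `t` of the lazy simple random walk started at the identity. -/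
noncomputable def law (S : Finset G) (t : ℕ) : G → ℝ :=
  (lazyStep S)^[t] (fun x => if x = 1 then (1 : ℝ) else 0)

/-- Total variation distance at time `t` from the uniform distribution. -/
noncomputable def tvDist (S : Finset G) (t : ℕ) : ℝ :=
  (1 / 2 : ℝ) * ∑ g : G, |law S t g - 1 / (Fintype.card G : ℝ)|

/-- Total variation mixing time (threshold `1/4`). -/
noncomputable def tmix (S : Finset G) : ℕ := sInf {t : ℕ | tvDist S t ≤ 1 / 4}

/-- The dual step, acting on test functions. -/
noncomputable def stepFn (S : Finset G) (φ : G → ℝ) : G → ℝ :=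
  fun g => φ g / 2 + (∑ s ∈ S, φ (g * s)) / (2 * (S.card : ℝ))

theorem sum_lazyStep_mul (S : Finset G) (p φ : G → ℝ) :
    ∑ x, lazyStep S p x * φ x = ∑ x, p x * stepFn S φ x := by
  have key : ∀ s : G, ∑ x, p (x * s⁻¹) * φ x = ∑ x, p x * φ (x * s) := by
    intro s
    rw [← Equiv.sum_comp (Equiv.mulRight s) (fun x => p (x * s⁻¹) * φ x)]
    simp
  unfold lazyStep stepFn
  simp only [add_mul, mul_add, Finset.sum_add_distrib]
  congr 1
  · apply Finset.sum_congr rfl; intro x _; ring
  · have h1 : ∀ x, (∑ s ∈ S, p (x * s⁻¹)) / (2 * (S.card : ℝ)) * φ x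
        = (∑ s ∈ S, p (x * s⁻¹) * φ x) * (1 / (2 * (S.card : ℝ))) := by
      intro x; rw [← Finset.sum_mul]; ring
    have h2 : ∀ x, p x * ((∑ s ∈ S, φ (x * s)) / (2 * (S.card : ℝ)))
        = (∑ s ∈ S, p x * φ (x * s)) * (1 / (2 * (S.card : ℝ))) := by
      intro x; rw [← Finset.mul_sum]; ring
    simp only [h1, h2]
    rw [← Finset.sum_mul, ← Finset.sum_mul]
    congr 1
    rw [Finset.sum_comm, Finset.sum_comm (s := Finset.univ) (t := S)]
    apply Finset.sum_congr rfl; intro s _; exact key s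

theorem sum_iter_mul (S : Finset G) (t : ℕ) : ∀ (p φ : G → ℝ),
    ∑ x, (lazyStep S)^[t] p x * φ x = ∑ x, p x * (stepFn S)^[t] φ x := by
  induction t with
  | zero => intro p φ; simp
  | succ t ih =>
    intro p φ
    rw [Function.iterate_succ_apply, Function.iterate_succ_apply']
    rw [ih, sum_lazyStep_mul]

theorem sum_law_mul (S : Finset G) (t : ℕ) (φ : G → ℝ) :
    ∑ x, law S t x * φ x = (stepFn S)^[t] φ 1 := by
  unfold law
  rw [sum_iter_mul]
  simp

theorem law_apply (S : Finset G) (t : ℕ) (x : G) :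
    law S t x = (stepFn S)^[t] (fun y => if y = x then 1 else 0) 1 := by
  rw [← sum_law_mul]
  simp

theorem stepFn_mono (S : Finset G) {φ ψ : G → ℝ} (h : ∀ g, φ g ≤ ψ g) (g : G) :
    stepFn S φ g ≤ stepFn S ψ g := by
  unfold stepFn
  have h1 : (∑ s ∈ S, φ (g * s)) ≤ ∑ s ∈ S, ψ (g * s) := Finset.sum_le_sum (fun s _ => h _)
  have h2 : (0 : ℝ) ≤ 2 * (S.card : ℝ) := by positivity
  have := div_le_div_of_nonneg_right h1 h2
  have := h g
  linarith

theorem iter_mono (S : Finset G) (t : ℕ) : ∀ {φ ψ : G → ℝ}, (∀ g, φ g ≤ ψ g) → ∀ g,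
    (stepFn S)^[t] φ g ≤ (stepFn S)^[t] ψ g := by
  induction t with
  | zero => intro φ ψ h g; simpa using h g
  | succ t ih =>
    intro φ ψ h g
    rw [Function.iterate_succ_apply, Function.iterate_succ_apply]
    exact ih (fun g => stepFn_mono S h g) g

theorem stepFn_smul (S : Finset G) (c : ℝ) (φ : G → ℝ) :
    stepFn S (fun g => c * φ g) = fun g => c * stepFn S φ g := by
  funext g
  unfold stepFn
  rw [← Finset.mul_sum]
  ring

theorem iter_smul (S : Finset G) (t : ℕ) : ∀ (c : ℝ) (φ : G → ℝ),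
    (stepFn S)^[t] (fun g => c * φ g) = fun g => c * (stepFn S)^[t] φ g := by
  induction t with
  | zero => intro c φ; rfl
  | succ t ih =>
    intro c φ
    rw [Function.iterate_succ_apply, Function.iterate_succ_apply, stepFn_smul, ih]

theorem stepFn_const (S : Finset G) (hS : S.Nonempty) (c : ℝ) :
    stepFn S (fun _ => c) = fun _ => c := by
  funext g
  unfold stepFn
  have : (S.card : ℝ) ≠ 0 := by exact_mod_cast hS.card_pos.ne'
  simp
  field_simp
  ring

theorem iter_const (S : Finset G) (hS : S.Nonempty) (t : ℕ) (c : ℝ) :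
    (stepFn S)^[t] (fun _ => c) = fun _ => c := by
  induction t with
  | zero => rfl
  | succ t ih => rw [Function.iterate_succ_apply, stepFn_const S hS, ih]

theorem law_nonneg (S : Finset G) (t : ℕ) (x : G) : 0 ≤ law S t x := by
  rw [law_apply]
  have h := iter_mono S t (φ := fun _ => 0) (ψ := fun y => if y = x then 1 else 0)
    (by intro g; split_ifs <;> norm_num) 1
  have h0 : (stepFn S)^[t] (fun _ => (0 : ℝ)) 1 = 0 := by
    have := iter_smul S t 0 (fun _ => (0 : ℝ))
    simpa using congrFun this 1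
  linarith

theorem sum_law (S : Finset G) (hS : S.Nonempty) (t : ℕ) : ∑ x, law S t x = 1 := by
  have h := sum_law_mul S t (fun _ => (1 : ℝ))
  rw [iter_const S hS] at h
  simpa using h

/-- The walk started from a general law. -/
theorem iter_eq_conv (S : Finset G) (t : ℕ) (p : G → ℝ) (x : G) :
    (lazyStep S)^[t] p x = ∑ y, p y * law S t (y⁻¹ * x) := by
  induction t generalizing x with
  | zero =>
    simp only [Function.iterate_zero, id, law]
    rw [Finset.sum_eq_single x]
    · simp
    · intro b _ hb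
      have : ¬ (b⁻¹ * x = 1) := by
        intro h; apply hb; rw [inv_mul_eq_one] at h; exact h
      simp [this]
    · intro h; exact absurd (Finset.mem_univ _) h
  | succ t ih =>
    rw [Function.iterate_succ_apply']
    have hl : ∀ z, law S (t + 1) z = lazyStep S (law S t) z := by
      intro z; unfold law; rw [Function.iterate_succ_apply']
    simp only [hl]
    have e1 : lazyStep S ((lazyStep S)^[t] p) x = ((lazyStep S)^[t] p) x / 2
        + (∑ s ∈ S, ((lazyStep S)^[t] p) (x * s⁻¹)) / (2 * (S.card : ℝ)) := rfl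
    have e2 : ∀ z, lazyStep S (law S t) z = (law S t) z / 2
        + (∑ s ∈ S, (law S t) (z * s⁻¹)) / (2 * (S.card : ℝ)) := fun _ => rfl
    rw [e1]
    simp only [e2, ih]
    simp only [mul_add, Finset.sum_add_distrib]
    congr 1
    · rw [Finset.sum_div]; apply Finset.sum_congr rfl; intro y _; ring
    · rw [Finset.sum_comm]
      rw [Finset.sum_div]
      apply Finset.sum_congr rfl; intro y _
      rw [← Finset.mul_sum]
      rw [mul_div_assoc]
      simp only [mul_assoc]

theorem law_add (S : Finset G) (s t : ℕ) (x : G) :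
    law S (s + t) x = ∑ y, law S s y * law S t (y⁻¹ * x) := by
  rw [← iter_eq_conv]
  unfold law
  rw [← Function.iterate_add_apply, add_comm]

theorem tvDist_le_one (S : Finset G) (hS : S.Nonempty) (t : ℕ) : tvDist S t ≤ 1 := by
  unfold tvDist
  have h1 : ∑ g : G, |law S t g - 1 / (Fintype.card G : ℝ)|
      ≤ ∑ g : G, (law S t g + 1 / (Fintype.card G : ℝ)) := by
    apply Finset.sum_le_sum
    intro g _
    have h0 := law_nonneg S t g
    have h2 : (0 : ℝ) ≤ 1 / (Fintype.card G : ℝ) := by positivity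
    rw [abs_le]; constructor <;> linarith
  rw [Finset.sum_add_distrib, sum_law S hS] at h1
  have h3 : ∑ _g : G, 1 / (Fintype.card G : ℝ) = 1 := by
    simp
  rw [h3] at h1
  linarith

theorem tvDist_step (S : Finset G) (hS : S.Nonempty) (s m : ℕ) (c : ℝ)
    (hc : ∀ x, c / (Fintype.card G : ℝ) ≤ law S m x) :
    tvDist S (s + m) ≤ (1 - c) * tvDist S s := by
  set u : ℝ := 1 / (Fintype.card G : ℝ) with hu
  have hcard : (0 : ℝ) < (Fintype.card G : ℝ) := by exact_mod_cast Fintype.card_pos
  have hcu : ∀ x, c * u ≤ law S m x := by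
    intro x; have := hc x; rw [hu]; rw [mul_one_div]; exact this
  have hsumy : ∀ x, ∑ y : G, law S m (y⁻¹ * x) = 1 := by
    intro x
    have h := sum_law S hS m
    rw [← Equiv.sum_comp ((Equiv.inv G).trans (Equiv.mulRight x)) (law S m)] at h
    simpa using h
  have hsumx : ∀ y, ∑ x : G, law S m (y⁻¹ * x) = 1 := by
    intro y
    have h := sum_law S hS m
    rw [← Equiv.sum_comp (Equiv.mulLeft y⁻¹) (law S m)] at h
    simpa using h
  have hsumu : ∑ _y : G, u = 1 := by
    simp [hu]
  have hzero : ∑ y : G, (law S s y - u) = 0 := by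
    rw [Finset.sum_sub_distrib, sum_law S hS, hsumu]; ring
  have hpt : ∀ x, law S (s + m) x - u = ∑ y, (law S s y - u) * (law S m (y⁻¹ * x) - c * u) := by
    intro x
    simp only [sub_mul, mul_sub, Finset.sum_sub_distrib]
    rw [← law_add, ← Finset.mul_sum, hsumy, ← Finset.sum_mul, sum_law S hS]
    rw [← Finset.sum_mul, hsumu]
    ring
  unfold tvDist
  rw [← hu]
  have hb : ∑ x : G, |law S (s + m) x - u| ≤ (1 - c) * ∑ y : G, |law S s y - u| := by
    calc ∑ x : G, |law S (s + m) x - u|
        ≤ ∑ x : G, ∑ y, |law S s y - u| * (law S m (y⁻¹ * x) - c * u) := by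
          apply Finset.sum_le_sum
          intro x _
          rw [hpt x]
          refine (Finset.abs_sum_le_sum_abs _ _).trans ?_
          apply Finset.sum_le_sum
          intro y _
          rw [abs_mul, abs_of_nonneg (sub_nonneg.mpr (hcu (y⁻¹ * x)))]
      _ = (1 - c) * ∑ y : G, |law S s y - u| := by
          rw [Finset.sum_comm, Finset.mul_sum]
          apply Finset.sum_congr rfl
          intro y _
          rw [← Finset.mul_sum, Finset.sum_sub_distrib, hsumx]
          have : ∑ _x : G, c * u = c := by rw [← Finset.mul_sum, hsumu]; ring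
          rw [this]; ring
  calc (1 / 2 : ℝ) * ∑ g : G, |law S (s + m) g - u|
      ≤ (1 / 2) * ((1 - c) * ∑ y : G, |law S s y - u|) := by linarith
    _ = (1 - c) * (1 / 2 * ∑ g : G, |law S s g - u|) := by ring

theorem c_le_one (S : Finset G) (hS : S.Nonempty) (m : ℕ) (c : ℝ)
    (hc : ∀ x, c / (Fintype.card G : ℝ) ≤ law S m x) : c ≤ 1 := by
  have h := Finset.sum_le_sum (fun x (_ : x ∈ (Finset.univ : Finset G)) => hc x)
  rw [sum_law S hS] at h
  have hcard : (0 : ℝ) < (Fintype.card G : ℝ) := by exact_mod_cast Fintype.card_pos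
  simp at h
  rwa [mul_div_cancel₀ _ hcard.ne'] at h

theorem tvDist_iter (S : Finset G) (hS : S.Nonempty) (m : ℕ) (c : ℝ)
    (hc : ∀ x, c / (Fintype.card G : ℝ) ≤ law S m x) (j : ℕ) :
    tvDist S (j * m) ≤ (1 - c) ^ j := by
  induction j with
  | zero => simpa using tvDist_le_one S hS 0
  | succ j ih =>
    have h1 := tvDist_step S hS (j * m) m c hc
    have h2 : (j + 1) * m = j * m + m := by ring
    rw [h2, pow_succ]
    have h3 : 0 ≤ 1 - c := by linarith [c_le_one S hS m c hc]
    calc tvDist S (j * m + m) ≤ (1 - c) * tvDist S (j * m) := h1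
      _ ≤ (1 - c) * (1 - c) ^ j := mul_le_mul_of_nonneg_left ih h3
      _ = (1 - c) ^ j * (1 - c) := by ring

theorem tmix_le (S : Finset G) (t : ℕ) (h : tvDist S t ≤ 1 / 4) : tmix S ≤ t :=
  Nat.sInf_le h

theorem exists_mix (S : Finset G) (hS : S.Nonempty) (m : ℕ) (c : ℝ) (hc0 : 0 < c)
    (hc : ∀ x, c / (Fintype.card G : ℝ) ≤ law S m x) : ∃ t, tvDist S t ≤ 1 / 4 := by
  have h1 : 0 ≤ 1 - c := by linarith [c_le_one S hS m c hc]
  have h2 : 1 - c < 1 := by linarith
  obtain ⟨j, hj⟩ := exists_pow_lt_of_lt_one (show (0 : ℝ) < 1 / 4 by norm_num) h2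
  exact ⟨j * m, (tvDist_iter S hS m c hc j).trans hj.le⟩

theorem le_tmix (S : Finset G) (T : ℕ) (hex : ∃ t, tvDist S t ≤ 1 / 4)
    (h : ∀ t ≤ T, 1 / 4 < tvDist S t) : T < tmix S := by
  by_contra hlt
  push Not at hlt
  have hmem : tmix S ∈ {t : ℕ | tvDist S t ≤ 1 / 4} := Nat.sInf_mem hex
  have := h _ hlt
  change tvDist S (tmix S) ≤ 1 / 4 at hmem
  linarith

/-- Lower bound of total variation by an event, given as an indicator function. -/
theorem event_le_tvDist (S : Finset G) (hS : S.Nonempty) (t : ℕ) (E : Finset G) :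
    1 - (stepFn S)^[t] (fun g => if g ∈ E then 0 else 1) 1
      - (E.card : ℝ) / (Fintype.card G : ℝ) ≤ tvDist S t := by
  set u : ℝ := 1 / (Fintype.card G : ℝ) with hu
  have h1 : (stepFn S)^[t] (fun g => if g ∈ E then 0 else 1) 1
      = 1 - ∑ x ∈ E, law S t x := by
    rw [← sum_law_mul]
    have : ∀ x, law S t x * (if x ∈ E then (0 : ℝ) else 1)
        = law S t x - (if x ∈ E then law S t x else 0) := by
      intro x; split_ifs <;> ring
    simp only [this, Finset.sum_sub_distrib, sum_law S hS]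
    simp
  rw [h1]
  have hsumu : ∑ _y : G, u = 1 := by simp [hu]
  have hzero : ∑ y : G, (law S t y - u) = 0 := by
    rw [Finset.sum_sub_distrib, sum_law S hS, hsumu]; ring
  have h2 : ∑ x ∈ E, (law S t x - u) + ∑ x ∈ Eᶜ, (law S t x - u) = 0 := by
    rw [Finset.sum_add_sum_compl]; exact hzero
  have h3 : ∑ x ∈ E, (law S t x - u) = ∑ x ∈ E, law S t x - (E.card : ℝ) / (Fintype.card G : ℝ) := by
    rw [Finset.sum_sub_distrib]; simp [hu, div_eq_mul_inv]
  have h4 : ∑ x ∈ E, (law S t x - u) ≤ ∑ x ∈ E, |law S t x - u| :=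
    Finset.sum_le_sum (fun x _ => le_abs_self _)
  have h5 : -∑ x ∈ Eᶜ, (law S t x - u) ≤ ∑ x ∈ Eᶜ, |law S t x - u| := by
    rw [← Finset.sum_neg_distrib]
    exact Finset.sum_le_sum (fun x _ => neg_le_abs _)
  have h6 : ∑ x ∈ E, |law S t x - u| + ∑ x ∈ Eᶜ, |law S t x - u| = ∑ x, |law S t x - u| :=
    Finset.sum_add_sum_compl _ _
  unfold tvDist
  rw [← hu]
  linarith

theorem event_le_tvDist' (S : Finset G) (hS : S.Nonempty) (t : ℕ) (E : Finset G) (f : G → ℝ)
    (h0 : ∀ g, g ∈ E → f g = 0) (h1 : ∀ g, g ∉ E → f g = 1) :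
    1 - (stepFn S)^[t] f 1 - (E.card : ℝ) / (Fintype.card G : ℝ) ≤ tvDist S t := by
  have hf : f = fun g => if g ∈ E then 0 else 1 := by
    funext g
    by_cases hg : g ∈ E
    · rw [if_pos hg]; exact h0 g hg
    · rw [if_neg hg]; exact h1 g hg
  rw [hf]
  exact event_le_tvDist S hS t E

end Pool.Agent.H85.Mix
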