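import Mathlib
import Pool.Agent.H85.Mix.Basic

set_option autoImplicit false
set_option linter.unusedSectionVars false

namespace Pool.Agent.H85.Mix

open Finset
open scoped Classical

section
variable {G : Type} [Group G] [Fintype G]

theorem stepFn_add (S : Finset G) (φ ψ : G → ℝ) :
    stepFn S (fun g => φ g + ψ g) = fun g => stepFn S φ g + stepFn S ψ g := by
  funext g
  unfold stepFn
  rw [Finset.sum_add_distrib]
  ring

theorem iter_add (S : Finset G) (t : ℕ) : ∀ (φ ψ : G → ℝ),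
    (stepFn S)^[t] (fun g => φ g + ψ g)
      = fun g => (stepFn S)^[t] φ g + (stepFn S)^[t] ψ g := by
  induction t with
  | zero => intro φ ψ; rfl
  | succ t ih =>
    intro φ ψ
    rw [Function.iterate_succ_apply, Function.iterate_succ_apply, Function.iterate_succ_apply,
      stepFn_add, ih]

theorem iter_nonneg (S : Finset G) (t : ℕ) {φ : G → ℝ} (h : ∀ g, 0 ≤ φ g) (g : G) :
    0 ≤ (stepFn S)^[t] φ g := by
  have h1 := iter_mono S t (φ := fun _ => 0) (ψ := φ) h g
  have h0 : (stepFn S)^[t] (fun _ => (0 : ℝ)) g = 0 := by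
    have := iter_smul S t 0 (fun _ => (0 : ℝ))
    simpa using congrFun this g
  linarith
end

variable {H K : Type} [Group H] [Fintype H] [Group K] [Fintype K]

/-- sum over right translates -/
noncomputable def opX (X : Finset H) (θ : H → ℝ) : H → ℝ := fun h => ∑ a ∈ X, θ (h * a)

theorem opX_nonneg (X : Finset H) {θ : H → ℝ} (h : ∀ g, 0 ≤ θ g) (g : H) : 0 ≤ opX X θ g :=
  Finset.sum_nonneg (fun _ _ => h _)

theorem opX_mono (X : Finset H) {θ η : H → ℝ} (h : ∀ g, θ g ≤ η g) (g : H) :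
    opX X θ g ≤ opX X η g :=
  Finset.sum_le_sum (fun _ _ => h _)

/-- One step, on functions of the first coordinate. -/
theorem step_lower (S : Finset (H × K)) (X : Finset H)
    (hD : ∀ k : K, ((1 : H), k) ∈ S) (hX : ∀ a ∈ X, (a, (1 : K)) ∈ S)
    (θ : H → ℝ) (hθ : ∀ h, 0 ≤ θ h) (g : H × K) :
    (1 / 2 + ((Fintype.card K : ℝ) - 1) * (1 / (2 * (S.card : ℝ)))) * θ g.1
      + (1 / (2 * (S.card : ℝ))) * opX X θ g.1
      ≤ stepFn S (fun x => θ x.1) g := by
  unfold stepFn opX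
  have hq : (0 : ℝ) ≤ 1 / (2 * (S.card : ℝ)) := by positivity
  have h1 : ((Fintype.card K : ℝ) - 1) * θ g.1 + ∑ a ∈ X, θ (g.1 * a)
      ≤ ∑ s ∈ S, θ (g * s).1 := by
    set D : Finset (H × K) := ({1} : Finset H) ×ˢ (Finset.univ : Finset K) with hDdef
    set Y : Finset (H × K) := (X.erase 1) ×ˢ ({1} : Finset K) with hYdef
    have hdis : Disjoint D Y := by
      rw [Finset.disjoint_left]
      rintro ⟨a, k⟩ h1 h2
      simp only [hDdef, hYdef, Finset.mem_product, Finset.mem_singleton, Finset.mem_erase] at h1 h2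
      exact h2.1.1 h1.1
    have hsub : D ∪ Y ⊆ S := by
      intro x hx
      rcases Finset.mem_union.mp hx with hx | hx
      · obtain ⟨a, k⟩ := x
        simp only [hDdef, Finset.mem_product, Finset.mem_singleton] at hx
        have := hx.1; subst this
        exact hD k
      · obtain ⟨a, k⟩ := x
        simp only [hYdef, Finset.mem_product, Finset.mem_singleton, Finset.mem_erase] at hx
        have := hx.2; subst this
        exact hX a hx.1.2
    have h2 : ∑ s ∈ D ∪ Y, θ (g * s).1 ≤ ∑ s ∈ S, θ (g * s).1 :=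
      Finset.sum_le_sum_of_subset_of_nonneg hsub (fun _ _ _ => hθ _)
    rw [Finset.sum_union hdis] at h2
    have h3 : ∑ s ∈ D, θ (g * s).1 = (Fintype.card K : ℝ) * θ g.1 := by
      rw [hDdef, Finset.sum_product]
      simp
    have h4 : ∑ s ∈ Y, θ (g * s).1 = ∑ a ∈ X.erase 1, θ (g.1 * a) := by
      rw [hYdef, Finset.sum_product]
      simp
    have h5 : ∑ a ∈ X, θ (g.1 * a) ≤ ∑ a ∈ X.erase 1, θ (g.1 * a) + θ g.1 := by
      by_cases h1X : (1 : H) ∈ X
      · rw [← Finset.sum_erase_add _ _ h1X]; simp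
      · rw [Finset.erase_eq_of_notMem h1X]; linarith [hθ g.1]
    rw [h3, h4] at h2
    linarith
  have h2 := mul_le_mul_of_nonneg_left h1 hq
  have h3 : (∑ s ∈ S, θ (g * s).1) / (2 * (S.card : ℝ))
      = (1 / (2 * (S.card : ℝ))) * ∑ s ∈ S, θ (g * s).1 := by ring
  rw [h3]
  nlinarith [h2]

theorem iter_lower (S : Finset (H × K)) (X : Finset H)
    (hD : ∀ k : K, ((1 : H), k) ∈ S) (hX : ∀ a ∈ X, (a, (1 : K)) ∈ S)
    (ρ q : ℝ) (hρ : ρ = 1 / 2 + ((Fintype.card K : ℝ) - 1) * (1 / (2 * (S.card : ℝ))))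
    (hq : q = 1 / (2 * (S.card : ℝ))) (hρ0 : 0 ≤ ρ) (hρ1 : ρ ≤ 1) (j : ℕ) :
    ∀ (θ : H → ℝ), (∀ h, 0 ≤ θ h) → ∀ g : H × K,
      ρ ^ j * θ g.1 ≤ (stepFn S)^[j] (fun x => θ x.1) g ∧
      (j * q * ρ ^ j) * opX X θ g.1 ≤ (stepFn S)^[j] (fun x => θ x.1) g := by
  have hq0 : 0 ≤ q := by rw [hq]; positivity
  induction j with
  | zero => intro θ hθ g; simp; exact hθ _
  | succ j ih =>
    intro θ hθ g
    rw [Function.iterate_succ_apply]
    have hstep : ∀ x : H × K, ρ * θ x.1 + q * opX X θ x.1 ≤ stepFn S (fun x => θ x.1) x := by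
      intro x
      have := step_lower S X hD hX θ hθ x
      rw [hρ, hq]; exact this
    have hmono := iter_mono S j hstep g
    rw [iter_add] at hmono
    have e1 : (stepFn S)^[j] (fun x : H × K => ρ * θ x.1) g
        = ρ * (stepFn S)^[j] (fun x : H × K => θ x.1) g := by
      rw [iter_smul]
    have e2 : (stepFn S)^[j] (fun x : H × K => q * opX X θ x.1) g
        = q * (stepFn S)^[j] (fun x : H × K => opX X θ x.1) g := by
      rw [iter_smul]
    simp only [e1, e2] at hmono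
    obtain ⟨h1, h2⟩ := ih θ hθ g
    obtain ⟨h3, _⟩ := ih (opX X θ) (opX_nonneg X hθ) g
    have hop := opX_nonneg X hθ g.1
    have hρj : 0 ≤ ρ ^ j := by positivity
    have h3' : 0 ≤ (stepFn S)^[j] (fun x : H × K => opX X θ x.1) g :=
      le_trans (mul_nonneg hρj hop) h3
    constructor
    · calc ρ ^ (j + 1) * θ g.1 = ρ * (ρ ^ j * θ g.1) := by ring
        _ ≤ ρ * (stepFn S)^[j] (fun x : H × K => θ x.1) g := mul_le_mul_of_nonneg_left h1 hρ0
        _ ≤ _ := by
          refine le_trans ?_ hmono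
          have := mul_nonneg hq0 h3'
          linarith
    · refine le_trans ?_ hmono
      have h4 := mul_le_mul_of_nonneg_left h2 hρ0
      have h5 := mul_le_mul_of_nonneg_left h3 hq0
      have h6 : ρ ^ (j + 1) ≤ ρ ^ j := pow_le_pow_of_le_one hρ0 hρ1 (Nat.le_succ j)
      have h7 : q * (ρ ^ (j + 1) * opX X θ g.1) ≤ q * (ρ ^ j * opX X θ g.1) :=
        mul_le_mul_of_nonneg_left (mul_le_mul_of_nonneg_right h6 hop) hq0
      calc (((j + 1 : ℕ) : ℝ) * q * ρ ^ (j + 1)) * opX X θ g.1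
          = ρ * (j * q * ρ ^ j * opX X θ g.1) + q * (ρ ^ (j + 1) * opX X θ g.1) := by
            push_cast; ring
        _ ≤ _ := by linarith

/-- Minorisation after `M + M + M + 1` steps. -/
theorem law_lower (S : Finset (H × K)) (X1 X2 X3 : Finset H)
    (hD : ∀ k : K, ((1 : H), k) ∈ S)
    (h1 : ∀ a ∈ X1, (a, (1 : K)) ∈ S) (h2 : ∀ a ∈ X2, (a, (1 : K)) ∈ S)
    (h3 : ∀ a ∈ X3, (a, (1 : K)) ∈ S)
    (hfac : ∀ x : H, ∃ a ∈ X1, ∃ b ∈ X2, ∃ c ∈ X3, x = a * b * c)
    (ρ q : ℝ) (hρ : ρ = 1 / 2 + ((Fintype.card K : ℝ) - 1) * (1 / (2 * (S.card : ℝ))))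
    (hq : q = 1 / (2 * (S.card : ℝ))) (hρ0 : 0 ≤ ρ) (hρ1 : ρ ≤ 1) (M : ℕ) (x : H × K) :
    q * (M * q * ρ ^ M) ^ 3 ≤ law S (M + M + M + 1) x := by
  have hq0 : 0 ≤ q := by rw [hq]; positivity
  set κ : ℝ := M * q * ρ ^ M with hκ
  have hκ0 : 0 ≤ κ := by rw [hκ]; positivity
  have hlaw : law S (M + M + M + 1) x
      = (stepFn S)^[M + M + M + 1] (fun y => if y = x then (1 : ℝ) else 0) 1 := by
    rw [law_apply]
    refine congrFun (congrArg _ ?_) 1
    funext y
    by_cases hy : y = x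
    · rw [if_pos hy, if_pos hy]
    · rw [if_neg hy, if_neg hy]
  rw [hlaw]
  set θ : H → ℝ := fun h => if h = x.1 then 1 else 0 with hθ
  have hθ0 : ∀ h, 0 ≤ θ h := by intro h; simp only [hθ]; split_ifs <;> norm_num
  -- first step
  have hs0 : ∀ g : H × K, q * θ g.1 ≤ stepFn S (fun y => if y = x then 1 else 0) g := by
    intro g
    unfold stepFn
    have hnn : (0 : ℝ) ≤ (if g = x then (1 : ℝ) else 0) / 2 := by split_ifs <;> norm_num
    have hs : θ g.1 ≤ ∑ s ∈ S, (if g * s = x then (1 : ℝ) else 0) := by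
      simp only [hθ]
      split_ifs with hg
      · have hmem : (((1 : H), g.2⁻¹ * x.2) : H × K) ∈ S := hD _
        have hle := Finset.single_le_sum (f := fun s => if g * s = x then (1 : ℝ) else 0)
          (fun s _ => by split_ifs <;> norm_num) hmem
        have heq : g * ((1 : H), g.2⁻¹ * x.2) = x := by
          ext
          · simp [hg]
          · simp
        simp only [heq] at hle
        simpa using hle
      · exact Finset.sum_nonneg (fun s _ => by split_ifs <;> norm_num)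
    have e : (∑ s ∈ S, (if g * s = x then (1 : ℝ) else 0)) / (2 * (S.card : ℝ))
        = q * ∑ s ∈ S, (if g * s = x then (1 : ℝ) else 0) := by rw [hq]; ring
    rw [e]
    have := mul_le_mul_of_nonneg_left hs hq0
    linarith
  have go : ∀ (X : Finset H) (hX : ∀ a ∈ X, (a, (1 : K)) ∈ S) (F : H × K → ℝ) (η : H → ℝ) (c : ℝ),
      0 ≤ c → (∀ h, 0 ≤ η h) → (∀ g, c * η g.1 ≤ F g) →
      ∀ g, (c * κ) * opX X η g.1 ≤ (stepFn S)^[M] F g := by
    intro X hX F η c hc hη hF g
    have a1 := iter_mono S M hF g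
    rw [iter_smul] at a1
    have a2 := ((iter_lower S X hD hX ρ q hρ hq hρ0 hρ1 M) η hη g).2
    rw [← hκ] at a2
    have a3 := mul_le_mul_of_nonneg_left a2 hc
    calc (c * κ) * opX X η g.1 = c * (κ * opX X η g.1) := by ring
      _ ≤ _ := a3
      _ ≤ _ := a1
  have g1 := go X3 h3 _ θ q hq0 hθ0 hs0
  have g2 := go X2 h2 _ (opX X3 θ) (q * κ) (by positivity) (opX_nonneg X3 hθ0) g1
  have g3 := go X1 h1 _ (opX X2 (opX X3 θ)) (q * κ * κ) (by positivity)
    (opX_nonneg X2 (opX_nonneg X3 hθ0)) g2 1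
  have hiter : (stepFn S)^[M + M + M + 1] (fun y => if y = x then (1 : ℝ) else 0) 1
      = (stepFn S)^[M] ((stepFn S)^[M] ((stepFn S)^[M] (stepFn S (fun y => if y = x then (1 : ℝ) else 0)))) 1 := by
    rw [← Function.iterate_add_apply, ← Function.iterate_add_apply,
      ← Function.iterate_succ_apply]
  rw [hiter]
  refine le_trans ?_ g3
  have hone : 1 ≤ opX X1 (opX X2 (opX X3 θ)) (1 : H × K).1 := by
    obtain ⟨a, ha, b, hb, c, hc, hx⟩ := hfac x.1
    have s1 : opX X2 (opX X3 θ) ((1 : H × K).1 * a) ≤ opX X1 (opX X2 (opX X3 θ)) (1 : H × K).1 :=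
      Finset.single_le_sum (f := fun a => opX X2 (opX X3 θ) ((1 : H × K).1 * a))
        (fun _ _ => opX_nonneg X2 (opX_nonneg X3 hθ0) _) ha
    have s2 : opX X3 θ ((1 : H × K).1 * a * b) ≤ opX X2 (opX X3 θ) ((1 : H × K).1 * a) :=
      Finset.single_le_sum (f := fun b => opX X3 θ ((1 : H × K).1 * a * b))
        (fun _ _ => opX_nonneg X3 hθ0 _) hb
    have s3 : θ ((1 : H × K).1 * a * b * c) ≤ opX X3 θ ((1 : H × K).1 * a * b) :=
      Finset.single_le_sum (f := fun c => θ ((1 : H × K).1 * a * b * c))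
        (fun _ _ => hθ0 _) hc
    have s4 : θ ((1 : H × K).1 * a * b * c) = 1 := by
      simp [hθ, hx]
    linarith
  have : q * κ ^ 3 = (q * κ * κ * κ) * 1 := by ring
  rw [this]
  exact mul_le_mul_of_nonneg_left hone (by positivity)

end Pool.Agent.H85.Mix
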