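import Mathlib
import Pool.Agent.H85.Mix.Upper

set_option autoImplicit false
set_option linter.unusedSectionVars false

namespace Pool.Agent.H85.Mix

open Finset
open scoped Classical

variable {H K : Type} [Group H] [Fintype H] [Group K] [Fintype K]

/-- The generating sets used in the example. -/
noncomputable def mkS (A0 A1 B : Finset H) (L : Finset K) : Finset (H × K) :=
  (({1} : Finset H) ×ˢ (Finset.univ : Finset K)) ∪ (A0 ×ˢ ({1} : Finset K))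
    ∪ (A1 ×ˢ ({1} : Finset K)) ∪ (B ×ˢ L)

theorem sum_mkS (A0 A1 B : Finset H) (L : Finset K) (h0 : (1 : H) ∈ A0) (h1 : (1 : H) ∈ A1)
    (hB : (1 : H) ∈ B) (hL : (1 : K) ∈ L)
    (d01 : ∀ x ∈ A0, x ∈ A1 → x = 1) (d0B : ∀ x ∈ A0, x ∈ B → x = 1)
    (d1B : ∀ x ∈ A1, x ∈ B → x = 1) (θ : H → ℝ) (g : H) :
    ∑ s ∈ mkS A0 A1 B L, θ (g * s.1)
      = (Fintype.card K : ℝ) * θ g + (∑ a ∈ A0, θ (g * a) - θ g) + (∑ a ∈ A1, θ (g * a) - θ g)
        + (L.card : ℝ) * (∑ a ∈ B, θ (g * a) - θ g) := by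
  have hdec : mkS A0 A1 B L = (({1} : Finset H) ×ˢ (Finset.univ : Finset K))
      ∪ ((A0.erase 1) ×ˢ ({1} : Finset K)) ∪ ((A1.erase 1) ×ˢ ({1} : Finset K))
      ∪ ((B.erase 1) ×ˢ L) := by
    ext ⟨a, k⟩
    simp only [mkS, Finset.mem_union, Finset.mem_product, Finset.mem_singleton, Finset.mem_univ,
      and_true, Finset.mem_erase]
    by_cases ha : a = 1
    · subst ha; simp
    · simp [ha]
  rw [hdec]
  rw [Finset.sum_union, Finset.sum_union, Finset.sum_union]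
  · have e1 : ∑ x ∈ (({1} : Finset H) ×ˢ (Finset.univ : Finset K)), θ (g * x.1)
        = (Fintype.card K : ℝ) * θ g := by
      rw [Finset.sum_product]; simp
    have e2 : ∀ A : Finset H, (1 : H) ∈ A → ∀ L' : Finset K,
        ∑ x ∈ ((A.erase 1) ×ˢ L'), θ (g * x.1)
        = (L'.card : ℝ) * (∑ a ∈ A, θ (g * a) - θ g) := by
      intro A hA L'
      rw [Finset.sum_product, ← Finset.sum_erase_add _ _ hA]
      simp [Finset.mul_sum]
    rw [e1, e2 A0 h0, e2 A1 h1, e2 B hB]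
    simp
  · rw [Finset.disjoint_left]
    rintro ⟨a, k⟩ x1 x2
    simp only [Finset.mem_product, Finset.mem_singleton, Finset.mem_erase] at x1 x2
    exact x2.1.1 x1.1
  · rw [Finset.disjoint_left]
    rintro ⟨a, k⟩ x1 x2
    simp only [Finset.mem_union, Finset.mem_product, Finset.mem_singleton, Finset.mem_erase] at x1 x2
    rcases x1 with x1 | x1
    · exact x2.1.1 x1.1
    · exact x2.1.1 (d01 a x1.1.2 x2.1.2)
  · rw [Finset.disjoint_left]
    rintro ⟨a, k⟩ x1 x2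
    simp only [Finset.mem_union, Finset.mem_product, Finset.mem_singleton, Finset.mem_erase] at x1 x2
    rcases x1 with (x1 | x1) | x1
    · exact x2.1.1 x1.1
    · exact x2.1.1 (d0B a x1.1.2 x2.1.2)
    · exact x2.1.1 (d1B a x1.1.2 x2.1.2)

theorem card_mkS (A0 A1 B : Finset H) (L : Finset K) (h0 : (1 : H) ∈ A0) (h1 : (1 : H) ∈ A1)
    (hB : (1 : H) ∈ B) (hL : (1 : K) ∈ L)
    (d01 : ∀ x ∈ A0, x ∈ A1 → x = 1) (d0B : ∀ x ∈ A0, x ∈ B → x = 1)
    (d1B : ∀ x ∈ A1, x ∈ B → x = 1) :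
    ((mkS A0 A1 B L).card : ℝ)
      = (Fintype.card K : ℝ) + ((A0.card : ℝ) - 1) + ((A1.card : ℝ) - 1)
        + (L.card : ℝ) * ((B.card : ℝ) - 1) := by
  have h := sum_mkS A0 A1 B L h0 h1 hB hL d01 d0B d1B (fun _ => 1) 1
  simpa using h

/-- Augmented one step operator: the second variable counts the events of types `A0`, `A1`. -/
noncomputable def aug (A0 A1 B : Finset H) (pI q0 qB : ℝ) (Φ : H → ℕ → ℝ) : H → ℕ → ℝ :=
  fun g j => pI * Φ g j + q0 * (∑ a ∈ A0, Φ (g * a) (j + 1) + ∑ a ∈ A1, Φ (g * a) (j + 1))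
    + qB * ∑ a ∈ B, Φ (g * a) j

theorem step_eq_aug (A0 A1 B : Finset H) (L : Finset K) (h0 : (1 : H) ∈ A0) (h1 : (1 : H) ∈ A1)
    (hB : (1 : H) ∈ B) (hL : (1 : K) ∈ L)
    (d01 : ∀ x ∈ A0, x ∈ A1 → x = 1) (d0B : ∀ x ∈ A0, x ∈ B → x = 1)
    (d1B : ∀ x ∈ A1, x ∈ B → x = 1) (q pI : ℝ)
    (hq : q = 1 / (2 * ((mkS A0 A1 B L).card : ℝ)))
    (hpI : pI = 1 / 2 + q * ((Fintype.card K : ℝ) - 2 - (L.card : ℝ))) (θ : H → ℝ)
    (g : H × K) (j : ℕ) :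
    stepFn (mkS A0 A1 B L) (fun x => θ x.1) g
      = aug A0 A1 B pI q (q * (L.card : ℝ)) (fun h _ => θ h) g.1 j := by
  unfold stepFn aug
  have h := sum_mkS A0 A1 B L h0 h1 hB hL d01 d0B d1B θ g.1
  have e : (∑ s ∈ mkS A0 A1 B L, θ (g * s).1) = ∑ s ∈ mkS A0 A1 B L, θ (g.1 * s.1) := rfl
  rw [e, h, hpI]
  have e2 : ∀ z : ℝ, z / (2 * ((mkS A0 A1 B L).card : ℝ)) = q * z := by
    intro z; rw [hq]; ring
  rw [e2]
  ring

theorem iter_eq_aug (A0 A1 B : Finset H) (L : Finset K) (h0 : (1 : H) ∈ A0) (h1 : (1 : H) ∈ A1)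
    (hB : (1 : H) ∈ B) (hL : (1 : K) ∈ L)
    (d01 : ∀ x ∈ A0, x ∈ A1 → x = 1) (d0B : ∀ x ∈ A0, x ∈ B → x = 1)
    (d1B : ∀ x ∈ A1, x ∈ B → x = 1) (q pI : ℝ)
    (hq : q = 1 / (2 * ((mkS A0 A1 B L).card : ℝ)))
    (hpI : pI = 1 / 2 + q * ((Fintype.card K : ℝ) - 2 - (L.card : ℝ))) (t : ℕ) :
    ∀ (θ : H → ℝ) (g : H × K) (j : ℕ),
    (stepFn (mkS A0 A1 B L))^[t] (fun x => θ x.1) g
      = (aug A0 A1 B pI q (q * (L.card : ℝ)))^[t] (fun h _ => θ h) g.1 j := by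
  induction t with
  | zero => intro θ g j; rfl
  | succ t ih =>
    intro θ g j
    rw [Function.iterate_succ_apply, Function.iterate_succ_apply]
    have e1 : stepFn (mkS A0 A1 B L) (fun x => θ x.1)
        = fun x => (fun h => aug A0 A1 B pI q (q * (L.card : ℝ)) (fun h _ => θ h) h 0) x.1 := by
      funext g'
      exact step_eq_aug A0 A1 B L h0 h1 hB hL d01 d0B d1B q pI hq hpI θ g' 0
    have e2 : aug A0 A1 B pI q (q * (L.card : ℝ)) (fun h _ => θ h)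
        = fun h _ => (fun h => aug A0 A1 B pI q (q * (L.card : ℝ)) (fun h _ => θ h) h 0) h := by
      funext h' j'
      rfl
    have e3 := ih (fun h => aug A0 A1 B pI q (q * (L.card : ℝ)) (fun h _ => θ h) h 0) g j
    rw [← e2] at e3
    rw [e1]
    exact e3

section linear
variable (A0 A1 B : Finset H) (pI q0 qB : ℝ)

theorem aug_add (Φ Ψ : H → ℕ → ℝ) :
    aug A0 A1 B pI q0 qB (fun g j => Φ g j + Ψ g j)
      = fun g j => aug A0 A1 B pI q0 qB Φ g j + aug A0 A1 B pI q0 qB Ψ g j := by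
  funext g j
  simp only [aug, Finset.sum_add_distrib]
  ring

theorem aug_smul (c : ℝ) (Φ : H → ℕ → ℝ) :
    aug A0 A1 B pI q0 qB (fun g j => c * Φ g j)
      = fun g j => c * aug A0 A1 B pI q0 qB Φ g j := by
  funext g j
  simp only [aug, ← Finset.mul_sum]
  ring

theorem aug_iter_add (t : ℕ) : ∀ (Φ Ψ : H → ℕ → ℝ),
    (aug A0 A1 B pI q0 qB)^[t] (fun g j => Φ g j + Ψ g j)
      = fun g j => (aug A0 A1 B pI q0 qB)^[t] Φ g j + (aug A0 A1 B pI q0 qB)^[t] Ψ g j := by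
  induction t with
  | zero => intro Φ Ψ; rfl
  | succ t ih =>
    intro Φ Ψ
    rw [Function.iterate_succ_apply, Function.iterate_succ_apply, Function.iterate_succ_apply,
      aug_add, ih]

theorem aug_iter_smul (t : ℕ) : ∀ (c : ℝ) (Φ : H → ℕ → ℝ),
    (aug A0 A1 B pI q0 qB)^[t] (fun g j => c * Φ g j)
      = fun g j => c * (aug A0 A1 B pI q0 qB)^[t] Φ g j := by
  induction t with
  | zero => intro c Φ; rfl
  | succ t ih =>
    intro c Φ
    rw [Function.iterate_succ_apply, Function.iterate_succ_apply, aug_smul, ih]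

theorem aug_iter_zero (t : ℕ) :
    (aug A0 A1 B pI q0 qB)^[t] (fun _ _ => (0 : ℝ)) = fun _ _ => 0 := by
  have h := aug_iter_smul A0 A1 B pI q0 qB t 0 (fun _ _ => (0 : ℝ))
  simpa using h

theorem aug_iter_sum {ι : Type} (t : ℕ) (s : Finset ι) (Φ : ι → H → ℕ → ℝ) :
    (aug A0 A1 B pI q0 qB)^[t] (fun g j => ∑ i ∈ s, Φ i g j)
      = fun g j => ∑ i ∈ s, (aug A0 A1 B pI q0 qB)^[t] (Φ i) g j := by
  induction s using Finset.induction_on with
  | empty => simpa using aug_iter_zero A0 A1 B pI q0 qB t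
  | insert a s ha ih =>
    have e : (fun (g : H) (j : ℕ) => ∑ i ∈ insert a s, Φ i g j)
        = fun g j => Φ a g j + ∑ i ∈ s, Φ i g j := by
      funext g j; rw [Finset.sum_insert ha]
    rw [e, aug_iter_add, ih]
    funext g j
    rw [Finset.sum_insert ha]

theorem aug_mono (hp : 0 ≤ pI) (h0 : 0 ≤ q0) (hB : 0 ≤ qB) {Φ Ψ : H → ℕ → ℝ}
    (h : ∀ g j, Φ g j ≤ Ψ g j) (g : H) (j : ℕ) :
    aug A0 A1 B pI q0 qB Φ g j ≤ aug A0 A1 B pI q0 qB Ψ g j := by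
  unfold aug
  have a1 : ∑ a ∈ A0, Φ (g * a) (j + 1) ≤ ∑ a ∈ A0, Ψ (g * a) (j + 1) :=
    Finset.sum_le_sum (fun _ _ => h _ _)
  have a2 : ∑ a ∈ A1, Φ (g * a) (j + 1) ≤ ∑ a ∈ A1, Ψ (g * a) (j + 1) :=
    Finset.sum_le_sum (fun _ _ => h _ _)
  have a3 : ∑ a ∈ B, Φ (g * a) j ≤ ∑ a ∈ B, Ψ (g * a) j :=
    Finset.sum_le_sum (fun _ _ => h _ _)
  have b1 := mul_le_mul_of_nonneg_left (h g j) hp
  have b2 := mul_le_mul_of_nonneg_left (add_le_add a1 a2) h0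
  have b3 := mul_le_mul_of_nonneg_left a3 hB
  linarith

theorem aug_iter_mono (hp : 0 ≤ pI) (h0 : 0 ≤ q0) (hB : 0 ≤ qB) (t : ℕ) :
    ∀ {Φ Ψ : H → ℕ → ℝ}, (∀ g j, Φ g j ≤ Ψ g j) → ∀ (g : H) (j : ℕ),
    (aug A0 A1 B pI q0 qB)^[t] Φ g j ≤ (aug A0 A1 B pI q0 qB)^[t] Ψ g j := by
  induction t with
  | zero => intro Φ Ψ h g j; simpa using h g j
  | succ t ih =>
    intro Φ Ψ h g j
    rw [Function.iterate_succ_apply, Function.iterate_succ_apply]
    exact ih (fun g j => aug_mono A0 A1 B pI q0 qB hp h0 hB h g j) g j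

end linear

end Pool.Agent.H85.Mix
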