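import Mathlib
import Pool.Agent.H85.Mix.Aug

set_option autoImplicit false
set_option linter.unusedSectionVars false

namespace Pool.Agent.H85.Mix

open Finset

def z0 : DihedralGroup 4 → ℤ
  | .r i => if i = 0 then 1 else if i = 2 then -1 else 0
  | .sr i => if i = 2 then 1 else if i = 0 then -1 else 0

def z1 : DihedralGroup 4 → ℤ
  | .r i => if i = 3 then 1 else if i = 1 then -1 else 0
  | .sr i => if i = 1 then 1 else if i = 3 then -1 else 0

theorem z0_A0 : ∀ g : DihedralGroup 4, z0 (g * 1) + z0 (g * .sr 0) = 0 := by decide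
theorem z1_A0 : ∀ g : DihedralGroup 4, z1 (g * 1) + z1 (g * .sr 0) = 2 * z1 g := by decide
theorem z0_A1 : ∀ g : DihedralGroup 4, z0 (g * 1) + z0 (g * .sr 2) = 2 * z0 g := by decide
theorem z1_A1 : ∀ g : DihedralGroup 4, z1 (g * 1) + z1 (g * .sr 2) = 0 := by decide
theorem z0_B : ∀ g : DihedralGroup 4, z0 (g * 1) + z0 (g * .sr 1) = z0 g + z1 g := by decide
theorem z1_B : ∀ g : DihedralGroup 4, z1 (g * 1) + z1 (g * .sr 1) = z0 g + z1 g := by decide
theorem chi_sq_z : ∀ g : DihedralGroup 4, (z0 g + z1 g) * (z0 g + z1 g) = 1 := by decide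
theorem chi_r2_z : ∀ g : DihedralGroup 4,
    z0 (g * .r 2) + z1 (g * .r 2) = -(z0 g + z1 g) := by decide

noncomputable def h0 (g : DihedralGroup 4) : ℝ := (z0 g : ℝ)
noncomputable def h1 (g : DihedralGroup 4) : ℝ := (z1 g : ℝ)
noncomputable def chi (g : DihedralGroup 4) : ℝ := h0 g + h1 g

theorem chi_sq (g : DihedralGroup 4) : chi g * chi g = 1 := by
  unfold chi h0 h1; exact_mod_cast chi_sq_z g

theorem chi_r2 (g : DihedralGroup 4) : chi (g * .r 2) = - chi g := by
  unfold chi h0 h1; exact_mod_cast chi_r2_z g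

theorem h0_one : h0 1 = 1 := by
  have : z0 1 = 1 := by decide
  unfold h0; exact_mod_cast this

theorem h1_one : h1 1 = 0 := by
  have : z1 1 = 0 := by decide
  unfold h1; exact_mod_cast this

open scoped Classical

variable {n : ℕ}

/-- product set -/
noncomputable def pf (n : ℕ) (s : DihedralGroup 4) : Finset (Fin n → DihedralGroup 4) :=
  Fintype.piFinset (fun _ => ({1, s} : Finset (DihedralGroup 4)))

theorem sum_pf_two (s : DihedralGroup 4) (hs : (1 : DihedralGroup 4) ≠ s)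
    (f f' : DihedralGroup 4 → ℝ) (y y' : Fin n) (hy : y ≠ y') :
    ∑ a ∈ pf n s, f (a y) * f' (a y') = 2 ^ n * (((f 1 + f s) / 2) * ((f' 1 + f' s) / 2)) := by
  have h := Finset.prod_univ_sum (R := ℝ) (fun _ : Fin n => ({1, s} : Finset (DihedralGroup 4)))
    (fun i x => (if i = y then f x else 1) * (if i = y' then f' x else 1))
  have e1 : ∀ a : Fin n → DihedralGroup 4,
      ∏ i, ((if i = y then f (a i) else 1) * (if i = y' then f' (a i) else 1))
        = f (a y) * f' (a y') := by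
    intro a
    rw [Finset.prod_mul_distrib, Finset.prod_ite_eq', Finset.prod_ite_eq']
    simp
  have e2 : ∀ i : Fin n, ∑ x ∈ ({1, s} : Finset (DihedralGroup 4)),
      (if i = y then f x else 1) * (if i = y' then f' x else 1)
      = 2 * ((if i = y then (f 1 + f s) / 2 else 1) * (if i = y' then (f' 1 + f' s) / 2 else 1)) := by
    intro i
    rw [Finset.sum_pair hs]
    by_cases h1 : i = y
    · have h2 : i ≠ y' := by rw [h1]; exact hy
      simp only [h1, if_true, hy, if_false]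
      ring
    · by_cases h2 : i = y'
      · simp only [h2, if_true, hy.symm, if_false]; ring
      · simp only [h1, h2, if_false]; ring
  unfold pf
  calc ∑ a ∈ Fintype.piFinset (fun _ => ({1, s} : Finset (DihedralGroup 4))), f (a y) * f' (a y')
      = ∑ a ∈ Fintype.piFinset (fun _ => ({1, s} : Finset (DihedralGroup 4))),
        ∏ i, ((if i = y then f (a i) else 1) * (if i = y' then f' (a i) else 1)) := by
        apply Finset.sum_congr rfl; intro a _; rw [e1]
    _ = ∏ i : Fin n, ∑ x ∈ ({1, s} : Finset (DihedralGroup 4)),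
      (if i = y then f x else 1) * (if i = y' then f' x else 1) := h.symm
    _ = ∏ i : Fin n, (2 * ((if i = y then (f 1 + f s) / 2 else 1)
          * (if i = y' then (f' 1 + f' s) / 2 else 1))) := by
        apply Finset.prod_congr rfl; intro i _; exact e2 i
    _ = _ := by
        rw [Finset.prod_mul_distrib, Finset.prod_mul_distrib, Finset.prod_ite_eq',
          Finset.prod_ite_eq']
        simp

theorem sum_pf_one (s : DihedralGroup 4) (hs : (1 : DihedralGroup 4) ≠ s)
    (f : DihedralGroup 4 → ℝ) (y : Fin n) :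
    ∑ a ∈ pf n s, f (a y) = 2 ^ n * ((f 1 + f s) / 2) := by
  have h := Finset.prod_univ_sum (R := ℝ) (fun _ : Fin n => ({1, s} : Finset (DihedralGroup 4)))
    (fun i x => (if i = y then f x else 1))
  have e1 : ∀ a : Fin n → DihedralGroup 4,
      ∏ i, ((if i = y then f (a i) else 1)) = f (a y) := by
    intro a
    rw [Finset.prod_ite_eq']
    simp
  have e2 : ∀ i : Fin n, ∑ x ∈ ({1, s} : Finset (DihedralGroup 4)),
      (if i = y then f x else 1) = 2 * ((if i = y then (f 1 + f s) / 2 else 1)) := by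
    intro i
    rw [Finset.sum_pair hs]
    by_cases h1 : i = y
    · simp only [h1, if_true]; ring
    · simp only [h1, if_false]; ring
  unfold pf
  calc ∑ a ∈ Fintype.piFinset (fun _ => ({1, s} : Finset (DihedralGroup 4))), f (a y)
      = ∑ a ∈ Fintype.piFinset (fun _ => ({1, s} : Finset (DihedralGroup 4))),
        ∏ i, ((if i = y then f (a i) else 1)) := by
        apply Finset.sum_congr rfl; intro a _; rw [e1]
    _ = ∏ i : Fin n, ∑ x ∈ ({1, s} : Finset (DihedralGroup 4)),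
      (if i = y then f x else 1) := h.symm
    _ = ∏ i : Fin n, (2 * ((if i = y then (f 1 + f s) / 2 else 1))) := by
        apply Finset.prod_congr rfl; intro i _; exact e2 i
    _ = _ := by
        rw [Finset.prod_mul_distrib, Finset.prod_ite_eq']
        simp

theorem card_pf (s : DihedralGroup 4) (hs : (1 : DihedralGroup 4) ≠ s) :
    (pf n s).card = 2 ^ n := by
  unfold pf
  rw [Fintype.card_piFinset]
  simp [Finset.card_pair hs]

theorem ne_s0 : (1 : DihedralGroup 4) ≠ .sr 0 := by decide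
theorem ne_s2 : (1 : DihedralGroup 4) ≠ .sr 2 := by decide
theorem ne_s1 : (1 : DihedralGroup 4) ≠ .sr 1 := by decide

/-- translated pair sums -/
theorem tsum_two (s : DihedralGroup 4) (hs : (1 : DihedralGroup 4) ≠ s)
    (f f' : DihedralGroup 4 → ℝ) (y y' : Fin n) (hy : y ≠ y') (g : Fin n → DihedralGroup 4) :
    ∑ a ∈ pf n s, f ((g * a) y) * f' ((g * a) y')
      = 2 ^ n * (((f (g y * 1) + f (g y * s)) / 2) * ((f' (g y' * 1) + f' (g y' * s)) / 2)) :=
  sum_pf_two s hs (fun x => f (g y * x)) (fun x => f' (g y' * x)) y y' hy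

theorem tsum_one (s : DihedralGroup 4) (hs : (1 : DihedralGroup 4) ≠ s)
    (f : DihedralGroup 4 → ℝ) (y : Fin n) (g : Fin n → DihedralGroup 4) :
    ∑ a ∈ pf n s, f ((g * a) y) = 2 ^ n * ((f (g y * 1) + f (g y * s)) / 2) :=
  sum_pf_one s hs (fun x => f (g y * x)) y

theorem r_z0_A0 (g : DihedralGroup 4) : h0 (g * 1) + h0 (g * .sr 0) = 0 := by
  unfold h0; exact_mod_cast z0_A0 g
theorem r_z1_A0 (g : DihedralGroup 4) : h1 (g * 1) + h1 (g * .sr 0) = 2 * h1 g := by
  unfold h1; exact_mod_cast z1_A0 g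
theorem r_z0_A1 (g : DihedralGroup 4) : h0 (g * 1) + h0 (g * .sr 2) = 2 * h0 g := by
  unfold h0; exact_mod_cast z0_A1 g
theorem r_z1_A1 (g : DihedralGroup 4) : h1 (g * 1) + h1 (g * .sr 2) = 0 := by
  unfold h1; exact_mod_cast z1_A1 g
theorem r_z0_B (g : DihedralGroup 4) : h0 (g * 1) + h0 (g * .sr 1) = chi g := by
  unfold chi h0 h1; exact_mod_cast z0_B g
theorem r_z1_B (g : DihedralGroup 4) : h1 (g * 1) + h1 (g * .sr 1) = chi g := by
  unfold chi h0 h1; exact_mod_cast z1_B g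

/-- the operator of the example -/
noncomputable def augE (n : ℕ) (pI q0 qB : ℝ) :
    ((Fin n → DihedralGroup 4) → ℕ → ℝ) → ((Fin n → DihedralGroup 4) → ℕ → ℝ) :=
  aug (pf n (.sr 0)) (pf n (.sr 2)) (pf n (.sr 1)) pI q0 qB

section
variable (pI q0 qB : ℝ) (α γ : ℝ)

theorem augE_j (h0' : 2 ^ n * q0 = α) (hB' : 2 ^ n * qB = γ) (hs : pI + 2 * α + γ = 1)
    (c : ℝ) : augE n pI q0 qB (fun _ (j : ℕ) => (j : ℝ) + c)
      = fun _ (j : ℕ) => (j : ℝ) + (c + 2 * α) := by
  funext g j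
  unfold augE aug
  simp only [Finset.sum_const, card_pf _ ne_s0, card_pf _ ne_s2, card_pf _ ne_s1, nsmul_eq_mul]
  push_cast
  have e : pI = 1 - 2 * α - γ := by linarith
  rw [e, ← h0', ← hB']
  ring

theorem augE_iter_j (h0' : 2 ^ n * q0 = α) (hB' : 2 ^ n * qB = γ) (hs : pI + 2 * α + γ = 1)
    (t : ℕ) : (augE n pI q0 qB)^[t] (fun _ (j : ℕ) => (j : ℝ)) = fun _ (j : ℕ) => (j : ℝ) + 2 * α * t := by
  induction t with
  | zero => funext g j; simp
  | succ t ih =>
    rw [Function.iterate_succ_apply', ih, augE_j pI q0 qB α γ h0' hB' hs]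
    funext g j
    push_cast; ring

theorem augE_pow (b : ℝ) (h0' : 2 ^ n * q0 = α) (hB' : 2 ^ n * qB = γ)
    (hs : pI + 2 * α + γ = 1) :
    augE n pI q0 qB (fun _ j => b ^ j) = fun _ j => (1 + 2 * (b - 1) * α) * b ^ j := by
  funext g j
  unfold augE aug
  simp only [Finset.sum_const, card_pf _ ne_s0, card_pf _ ne_s2, card_pf _ ne_s1, nsmul_eq_mul]
  push_cast
  have e : pI = 1 - 2 * α - γ := by linarith
  rw [e, ← h0', ← hB', pow_succ]
  ring

theorem augE_iter_pow (b : ℝ) (h0' : 2 ^ n * q0 = α) (hB' : 2 ^ n * qB = γ)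
    (hs : pI + 2 * α + γ = 1) (t : ℕ) :
    (augE n pI q0 qB)^[t] (fun _ j => b ^ j) = fun _ j => (1 + 2 * (b - 1) * α) ^ t * b ^ j := by
  induction t with
  | zero => funext g j; simp
  | succ t ih =>
    rw [Function.iterate_succ_apply', ih]
    have := aug_smul (pf n (.sr 0)) (pf n (.sr 2)) (pf n (.sr 1)) pI q0 qB
      ((1 + 2 * (b - 1) * α) ^ t) (fun (_ : Fin n → DihedralGroup 4) j => b ^ j)
    have e := augE_pow (n := n) pI q0 qB α γ b h0' hB' hs
    unfold augE at e ⊢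
    rw [this, e]
    funext g j
    ring

/-- the linear statistic -/
theorem augE_chi (h0' : 2 ^ n * q0 = α) (hB' : 2 ^ n * qB = γ)
    (hs : pI + 2 * α + γ = 1) (y : Fin n) :
    augE n pI q0 qB (fun g j => (2 : ℝ) ^ j * chi (g y)) = fun g j => (2 : ℝ) ^ j * chi (g y) := by
  funext g j
  unfold augE aug
  simp only [← Finset.mul_sum]
  rw [tsum_one _ ne_s0 chi y g, tsum_one _ ne_s2 chi y g, tsum_one _ ne_s1 chi y g]
  have a1 : chi (g y * 1) + chi (g y * .sr 0) = 2 * h1 (g y) := by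
    have := r_z0_A0 (g y); have := r_z1_A0 (g y); unfold chi; linarith
  have a2 : chi (g y * 1) + chi (g y * .sr 2) = 2 * h0 (g y) := by
    have := r_z0_A1 (g y); have := r_z1_A1 (g y); unfold chi; linarith
  have a3 : chi (g y * 1) + chi (g y * .sr 1) = 2 * chi (g y) := by
    have := r_z0_B (g y); have := r_z1_B (g y); 
    have e : chi (g y * 1) + chi (g y * .sr 1) = (h0 (g y * 1) + h0 (g y * .sr 1))
      + (h1 (g y * 1) + h1 (g y * .sr 1)) := by unfold chi; ring
    rw [e]; linarith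
  rw [a1, a2, a3]
  have e : pI = 1 - 2 * α - γ := by linarith
  rw [e, ← h0', ← hB', pow_succ]
  unfold chi
  ring

theorem augE_iter_chi (h0' : 2 ^ n * q0 = α) (hB' : 2 ^ n * qB = γ)
    (hs : pI + 2 * α + γ = 1) (y : Fin n) (t : ℕ) :
    (augE n pI q0 qB)^[t] (fun g j => (2 : ℝ) ^ j * chi (g y))
      = fun g j => (2 : ℝ) ^ j * chi (g y) :=
  Function.iterate_fixed (augE_chi pI q0 qB α γ h0' hB' hs y) t

/-- the pair statistics -/
theorem augE_pair (h0' : 2 ^ n * q0 = α) (hB' : 2 ^ n * qB = γ)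
    (hs : pI + 2 * α + γ = 1) (y y' : Fin n) (hy : y ≠ y') (m d : ℝ) :
    augE n pI q0 qB (fun g j => (4 : ℝ) ^ j *
        ((m + d) * (h0 (g y) * h0 (g y') + h1 (g y) * h1 (g y'))
          + (m - d) * (h0 (g y) * h1 (g y') + h1 (g y) * h0 (g y'))))
      = fun g j => (4 : ℝ) ^ j *
        (((m + 2 * α * d) + ((1 - γ) * d + 2 * α * m)) *
            (h0 (g y) * h0 (g y') + h1 (g y) * h1 (g y'))
          + ((m + 2 * α * d) - ((1 - γ) * d + 2 * α * m)) *
            (h0 (g y) * h1 (g y') + h1 (g y) * h0 (g y'))) := by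
  funext g j
  unfold augE aug
  have key : ∀ (s : DihedralGroup 4) (hs : (1 : DihedralGroup 4) ≠ s) (j : ℕ) (g0 g0' g1 g1' : ℝ),
      h0 (g y * 1) + h0 (g y * s) = 2 * g0 → h0 (g y' * 1) + h0 (g y' * s) = 2 * g0' →
      h1 (g y * 1) + h1 (g y * s) = 2 * g1 → h1 (g y' * 1) + h1 (g y' * s) = 2 * g1' →
      ∑ a ∈ pf n s, (4 : ℝ) ^ j *
        ((m + d) * (h0 ((g * a) y) * h0 ((g * a) y') + h1 ((g * a) y) * h1 ((g * a) y'))
          + (m - d) * (h0 ((g * a) y) * h1 ((g * a) y') + h1 ((g * a) y) * h0 ((g * a) y')))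
      = 2 ^ n * ((4 : ℝ) ^ j * ((m + d) * (g0 * g0' + g1 * g1') + (m - d) * (g0 * g1' + g1 * g0'))) := by
    intro s hs j g0 g0' g1 g1' e0 e0' e1 e1'
    rw [← Finset.mul_sum, Finset.sum_add_distrib, ← Finset.mul_sum, ← Finset.mul_sum,
      Finset.sum_add_distrib, Finset.sum_add_distrib]
    rw [tsum_two s hs h0 h0 y y' hy g, tsum_two s hs h1 h1 y y' hy g,
      tsum_two s hs h0 h1 y y' hy g, tsum_two s hs h1 h0 y y' hy g, e0, e0', e1, e1']
    ring
  rw [key _ ne_s0 (j + 1) 0 0 (h1 (g y)) (h1 (g y')) (by rw [r_z0_A0]; ring)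
    (by rw [r_z0_A0]; ring) (r_z1_A0 _) (r_z1_A0 _)]
  rw [key _ ne_s2 (j + 1) (h0 (g y)) (h0 (g y')) 0 0 (r_z0_A1 _) (r_z0_A1 _)
    (by rw [r_z1_A1]; ring) (by rw [r_z1_A1]; ring)]
  rw [key _ ne_s1 j (chi (g y) / 2) (chi (g y') / 2) (chi (g y) / 2) (chi (g y') / 2)
    (by rw [r_z0_B]; ring) (by rw [r_z0_B]; ring) (by rw [r_z1_B]; ring) (by rw [r_z1_B]; ring)]
  have e : pI = 1 - 2 * α - γ := by linarith
  rw [e, ← h0', ← hB', pow_succ]
  unfold chi
  ring

end

end Pool.Agent.H85.Mix
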