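import Mathlib
import Pool.Agent.H85.Mix.Moments

set_option autoImplicit false
set_option linter.unusedSectionVars false

namespace Pool.Agent.H85.Mix

open Finset
open scoped Classical

variable {n : ℕ}

/-- the linear statistic -/
noncomputable def Fst (g : Fin n → DihedralGroup 4) : ℝ := ∑ y, chi (g y)

section
variable (pI q0 qB : ℝ) (α γ r : ℝ)

theorem augE_iter_pair (h0' : 2 ^ n * q0 = α) (hB' : 2 ^ n * qB = γ)
    (hs : pI + 2 * α + γ = 1) (hα : 0 ≤ α) (hγ1 : γ ≤ 1) (hr0 : 0 ≤ r)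
    (hr : r * γ = 2 * α) (y y' : Fin n) (hy : y ≠ y') (t : ℕ) :
    ∃ m d : ℝ, 0 ≤ m ∧ 0 ≤ d ∧ d ≤ r * m ∧ m ≤ (1 + 2 * α * r) ^ t ∧
      (augE n pI q0 qB)^[t] (fun g j => (4 : ℝ) ^ j * (chi (g y) * chi (g y')))
        = fun g j => (4 : ℝ) ^ j *
        ((m + d) * (h0 (g y) * h0 (g y') + h1 (g y) * h1 (g y'))
          + (m - d) * (h0 (g y) * h1 (g y') + h1 (g y) * h0 (g y'))) := by
  induction t with
  | zero =>
    refine ⟨1, 0, by norm_num, le_refl _, by simpa using hr0, by simp, ?_⟩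
    funext g j
    simp only [Function.iterate_zero, id]
    unfold chi
    ring
  | succ t ih =>
    obtain ⟨m, d, hm, hd, hdr, hmt, h⟩ := ih
    refine ⟨m + 2 * α * d, (1 - γ) * d + 2 * α * m, ?_, ?_, ?_, ?_, ?_⟩
    · positivity
    · have : 0 ≤ (1 - γ) * d := mul_nonneg (by linarith) hd
      positivity
    · have h1 : (1 - γ) * d ≤ (1 - γ) * (r * m) := mul_le_mul_of_nonneg_left hdr (by linarith)
      have h2 : (1 - γ) * (r * m) + 2 * α * m = r * m := by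
        rw [← hr]; ring
      have h3 : 0 ≤ r * (2 * α * d) := by positivity
      calc (1 - γ) * d + 2 * α * m ≤ (1 - γ) * (r * m) + 2 * α * m := by linarith
        _ = r * m := h2
        _ ≤ r * (m + 2 * α * d) := by linarith
    · have h1 : 2 * α * d ≤ 2 * α * (r * m) := mul_le_mul_of_nonneg_left hdr (by linarith)
      calc m + 2 * α * d ≤ m + 2 * α * (r * m) := by linarith
        _ = (1 + 2 * α * r) * m := by ring
        _ ≤ (1 + 2 * α * r) * (1 + 2 * α * r) ^ t :=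
            mul_le_mul_of_nonneg_left hmt (by positivity)
        _ = (1 + 2 * α * r) ^ (t + 1) := by ring
    · rw [Function.iterate_succ_apply', h]
      exact augE_pair pI q0 qB α γ h0' hB' hs y y' hy m d

theorem ev_pair (h0' : 2 ^ n * q0 = α) (hB' : 2 ^ n * qB = γ)
    (hs : pI + 2 * α + γ = 1) (hα : 0 ≤ α) (hγ1 : γ ≤ 1) (hr0 : 0 ≤ r)
    (hr : r * γ = 2 * α) (y y' : Fin n) (hy : y ≠ y') (t : ℕ) :
    (augE n pI q0 qB)^[t] (fun g j => (4 : ℝ) ^ j * (chi (g y) * chi (g y'))) 1 0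
      ≤ (1 + r) * (1 + 2 * α * r) ^ t := by
  obtain ⟨m, d, hm, hd, hdr, hmt, h⟩ := augE_iter_pair pI q0 qB α γ r h0' hB' hs hα hγ1 hr0 hr
    y y' hy t
  rw [h]
  simp only [Pi.one_apply, h0_one, h1_one]
  calc (4 : ℝ) ^ 0 * ((m + d) * (1 * 1 + 0 * 0) + (m - d) * (1 * 0 + 0 * 1)) = m + d := by ring
    _ ≤ m + r * m := by linarith
    _ = (1 + r) * m := by ring
    _ ≤ (1 + r) * (1 + 2 * α * r) ^ t := mul_le_mul_of_nonneg_left hmt (by positivity)

theorem ev_sq (h0' : 2 ^ n * q0 = α) (hB' : 2 ^ n * qB = γ)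
    (hs : pI + 2 * α + γ = 1) (hα : 0 ≤ α) (hγ1 : γ ≤ 1) (hr0 : 0 ≤ r)
    (hr : r * γ = 2 * α) (t : ℕ) :
    (augE n pI q0 qB)^[t] (fun g j => (4 : ℝ) ^ j * (Fst g * Fst g)) 1 0
      ≤ n * (1 + 6 * α) ^ t + (n : ℝ) ^ 2 * ((1 + r) * (1 + 2 * α * r) ^ t) := by
  have e : (fun (g : Fin n → DihedralGroup 4) (j : ℕ) => (4 : ℝ) ^ j * (Fst g * Fst g))
      = fun g j => ∑ y, ∑ y', (4 : ℝ) ^ j * (chi (g y) * chi (g y')) := by
    funext g j
    unfold Fst
    rw [Finset.sum_mul_sum, Finset.mul_sum]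
    apply Finset.sum_congr rfl; intro y _
    rw [Finset.mul_sum]
  rw [e]
  have e2 : (augE n pI q0 qB)^[t]
      (fun g j => ∑ y, ∑ y', (4 : ℝ) ^ j * (chi (g y) * chi (g y'))) 1 0
      = ∑ y, ∑ y', (augE n pI q0 qB)^[t]
        (fun g j => (4 : ℝ) ^ j * (chi (g y) * chi (g y'))) 1 0 := by
    unfold augE
    rw [aug_iter_sum (pf n (.sr 0)) (pf n (.sr 2)) (pf n (.sr 1)) pI q0 qB t Finset.univ
      (fun y g j => ∑ y', (4 : ℝ) ^ j * (chi (g y) * chi (g y')))]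
    apply Finset.sum_congr rfl; intro y _
    rw [aug_iter_sum (pf n (.sr 0)) (pf n (.sr 2)) (pf n (.sr 1)) pI q0 qB t Finset.univ
      (fun y' g j => (4 : ℝ) ^ j * (chi (g y) * chi (g y')))]
  rw [e2]
  set X : ℝ := (1 + r) * (1 + 2 * α * r) ^ t with hX
  have hX0 : 0 ≤ X := by positivity
  set A : ℝ := (1 + 6 * α) ^ t with hA
  have hA0 : 0 ≤ A := by positivity
  have hval : ∀ y y' : Fin n, (augE n pI q0 qB)^[t]
        (fun g j => (4 : ℝ) ^ j * (chi (g y) * chi (g y'))) 1 0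
        ≤ (if y = y' then A else 0) + X := by
    intro y y'
    by_cases hy : y = y'
    · subst hy
      have e3 : (fun (g : Fin n → DihedralGroup 4) (j : ℕ) => (4 : ℝ) ^ j * (chi (g y) * chi (g y)))
          = fun _ j => (4 : ℝ) ^ j := by
        funext g j; rw [chi_sq]; ring
      rw [e3, augE_iter_pow pI q0 qB α γ 4 h0' hB' hs t]
      simp only [if_true, pow_zero, mul_one]
      have : 1 + 2 * (4 - 1) * α = 1 + 6 * α := by ring
      rw [this]
      linarith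
    · rw [if_neg hy, zero_add]
      exact ev_pair pI q0 qB α γ r h0' hB' hs hα hγ1 hr0 hr y y' hy t
  calc ∑ y, ∑ y', (augE n pI q0 qB)^[t]
        (fun g j => (4 : ℝ) ^ j * (chi (g y) * chi (g y'))) 1 0
      ≤ ∑ y : Fin n, ∑ y' : Fin n, ((if y = y' then A else 0) + X) :=
        Finset.sum_le_sum (fun y _ => Finset.sum_le_sum (fun y' _ => hval y y'))
    _ = n * A + (n : ℝ) ^ 2 * X := by
        simp only [Finset.sum_add_distrib, Finset.sum_const, Finset.sum_ite_eq, Finset.mem_univ,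
          if_true, Finset.card_univ, Fintype.card_fin, nsmul_eq_mul]
        ring

theorem ev_lin (h0' : 2 ^ n * q0 = α) (hB' : 2 ^ n * qB = γ)
    (hs : pI + 2 * α + γ = 1) (t : ℕ) :
    (augE n pI q0 qB)^[t] (fun g j => (2 : ℝ) ^ j * Fst g) 1 0 = n := by
  have e : (fun (g : Fin n → DihedralGroup 4) (j : ℕ) => (2 : ℝ) ^ j * Fst g)
      = fun g j => ∑ y, (2 : ℝ) ^ j * chi (g y) := by
    funext g j
    unfold Fst
    rw [Finset.mul_sum]
  rw [e]
  have e2 : (augE n pI q0 qB)^[t]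
      (fun g j => ∑ y, (2 : ℝ) ^ j * chi (g y)) 1 0
      = ∑ y, (augE n pI q0 qB)^[t] (fun g j => (2 : ℝ) ^ j * chi (g y)) 1 0 := by
    unfold augE
    rw [aug_iter_sum (pf n (.sr 0)) (pf n (.sr 2)) (pf n (.sr 1)) pI q0 qB t Finset.univ
      (fun y g j => (2 : ℝ) ^ j * chi (g y))]
  rw [e2]
  simp only [augE_iter_chi pI q0 qB α γ h0' hB' hs _ t]
  simp [chi, h0_one, h1_one]

theorem indicator_le (k : ℕ) (hn : 0 < n) (g : Fin n → DihedralGroup 4) (j : ℕ) :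
    (if Fst g < (n : ℝ) / (2 * 2 ^ k) then (1 : ℝ) else 0)
      ≤ (1 / ((k : ℝ) + 1)) * (j : ℝ) + ((4 / (n : ℝ) ^ 2) * ((4 : ℝ) ^ j * (Fst g * Fst g))
        + ((-8 / (n : ℝ)) * ((2 : ℝ) ^ j * Fst g) + 4)) := by
  have hn' : (0 : ℝ) < n := by exact_mod_cast hn
  have hsq : (4 / (n : ℝ) ^ 2) * ((4 : ℝ) ^ j * (Fst g * Fst g))
        + ((-8 / (n : ℝ)) * ((2 : ℝ) ^ j * Fst g) + 4)
        = 4 * ((2 : ℝ) ^ j * Fst g / n - 1) ^ 2 := by
    have : (4 : ℝ) ^ j = (2 : ℝ) ^ j * (2 : ℝ) ^ j := by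
      rw [← mul_pow]; norm_num
    rw [this]
    field_simp
    ring
  rw [hsq]
  have h1 : (0 : ℝ) ≤ (1 / ((k : ℝ) + 1)) * (j : ℝ) := by positivity
  have h2 : (0 : ℝ) ≤ 4 * ((2 : ℝ) ^ j * Fst g / n - 1) ^ 2 := by positivity
  split_ifs with hF
  · by_cases hj : k + 1 ≤ j
    · have hj' : (k : ℝ) + 1 ≤ (j : ℝ) := by exact_mod_cast hj
      have : 1 ≤ (1 / ((k : ℝ) + 1)) * (j : ℝ) := by
        rw [one_div, ← div_eq_inv_mul, le_div_iff₀ (by positivity)]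
        linarith
      linarith
    · have hj' : j ≤ k := by omega
      have hpow : (2 : ℝ) ^ j ≤ 2 ^ k := pow_le_pow_right₀ (by norm_num) hj'
      have h3 : (2 : ℝ) ^ j * Fst g / n ≤ 1 / 2 := by
        by_cases hF0 : 0 ≤ Fst g
        · rw [div_le_iff₀ hn']
          have h4 : (2 : ℝ) ^ j * Fst g ≤ 2 ^ k * Fst g := mul_le_mul_of_nonneg_right hpow hF0
          have h5 : (2 : ℝ) ^ k * Fst g ≤ 2 ^ k * ((n : ℝ) / (2 * 2 ^ k)) :=
            mul_le_mul_of_nonneg_left hF.le (by positivity)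
          have h6 : (2 : ℝ) ^ k * ((n : ℝ) / (2 * 2 ^ k)) = 1 / 2 * n := by
            field_simp
          linarith
        · push Not at hF0
          have : (2 : ℝ) ^ j * Fst g / n ≤ 0 := by
            apply div_nonpos_of_nonpos_of_nonneg _ hn'.le
            exact mul_nonpos_of_nonneg_of_nonpos (by positivity) hF0.le
          linarith
      nlinarith
  · linarith

theorem prob_bound (k : ℕ) (hn : 0 < n) (hpI : 0 ≤ pI) (hq0 : 0 ≤ q0) (hqB : 0 ≤ qB)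
    (h0' : 2 ^ n * q0 = α) (hB' : 2 ^ n * qB = γ)
    (hs : pI + 2 * α + γ = 1) (hα : 0 ≤ α) (hγ1 : γ ≤ 1) (hr0 : 0 ≤ r)
    (hr : r * γ = 2 * α) (t : ℕ) :
    (augE n pI q0 qB)^[t] (fun g _ => if Fst g < (n : ℝ) / (2 * 2 ^ k) then (1 : ℝ) else 0) 1 0
      ≤ 2 * α * t / ((k : ℝ) + 1)
        + 4 * ((1 + 6 * α) ^ t / n + ((1 + r) * (1 + 2 * α * r) ^ t - 1)) := by
  have hn' : (0 : ℝ) < n := by exact_mod_cast hn
  have hmono := aug_iter_mono (pf n (.sr 0)) (pf n (.sr 2)) (pf n (.sr 1)) pI q0 qB hpI hq0 hqB t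
    (indicator_le (n := n) k hn) 1 0
  have hadd := aug_iter_add (pf n (.sr 0)) (pf n (.sr 2)) (pf n (.sr 1)) pI q0 qB t
  have hsm := aug_iter_smul (pf n (.sr 0)) (pf n (.sr 2)) (pf n (.sr 1)) pI q0 qB t
  have e1 := augE_iter_j (n := n) pI q0 qB α γ h0' hB' hs t
  have e2 := ev_sq (n := n) pI q0 qB α γ r h0' hB' hs hα hγ1 hr0 hr t
  have e3 := ev_lin (n := n) pI q0 qB α γ h0' hB' hs t
  have e4 := augE_iter_pow (n := n) pI q0 qB α γ 1 h0' hB' hs t
  have e4' : (augE n pI q0 qB)^[t] (fun (_ : Fin n → DihedralGroup 4) (_ : ℕ) => (4 : ℝ)) 1 0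
      = 4 := by
    have h5 := hsm 4 (fun _ j => (1 : ℝ) ^ j)
    unfold augE at e4 ⊢
    rw [e4] at h5
    simpa using congrFun (congrFun h5 1) 0
  unfold augE at e1 e2 e3 e4' ⊢
  refine hmono.trans ?_
  rw [hadd (fun _ j => (1 / ((k : ℝ) + 1)) * (j : ℝ))
      (fun g j => (4 / (n : ℝ) ^ 2) * ((4 : ℝ) ^ j * (Fst g * Fst g))
        + ((-8 / (n : ℝ)) * ((2 : ℝ) ^ j * Fst g) + 4)),
    hadd (fun g j => (4 / (n : ℝ) ^ 2) * ((4 : ℝ) ^ j * (Fst g * Fst g)))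
      (fun g j => ((-8 / (n : ℝ)) * ((2 : ℝ) ^ j * Fst g) + 4)),
    hadd (fun g j => (-8 / (n : ℝ)) * ((2 : ℝ) ^ j * Fst g)) (fun _ _ => (4 : ℝ)),
    hsm (1 / ((k : ℝ) + 1)) (fun _ j => (j : ℝ)),
    hsm (4 / (n : ℝ) ^ 2) (fun g j => ((4 : ℝ) ^ j * (Fst g * Fst g))),
    hsm (-8 / (n : ℝ)) (fun g j => ((2 : ℝ) ^ j * Fst g))]
  simp only [e3, e4', e1]
  have h6 : (4 / (n : ℝ) ^ 2) * ((aug (pf n (.sr 0)) (pf n (.sr 2)) (pf n (.sr 1)) pI q0 qB)^[t]
      (fun g j => (4 : ℝ) ^ j * (Fst g * Fst g)) 1 0)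
      ≤ (4 / (n : ℝ) ^ 2) * (n * (1 + 6 * α) ^ t
        + (n : ℝ) ^ 2 * ((1 + r) * (1 + 2 * α * r) ^ t)) :=
    mul_le_mul_of_nonneg_left e2 (by positivity)
  have h7 : (4 / (n : ℝ) ^ 2) * (n * (1 + 6 * α) ^ t
        + (n : ℝ) ^ 2 * ((1 + r) * (1 + 2 * α * r) ^ t))
        = 4 * ((1 + 6 * α) ^ t / n) + 4 * ((1 + r) * (1 + 2 * α * r) ^ t) := by
    field_simp
  have h8 : (-8 / (n : ℝ)) * (n : ℝ) = -8 := by field_simp
  rw [h8]
  have h9 : 1 / ((k : ℝ) + 1) * (((0 : ℕ) : ℝ) + 2 * α * t) = 2 * α * t / ((k : ℝ) + 1) := by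
    push_cast; ring
  rw [h9]
  linarith

end

/-- Under the uniform distribution the statistic is small. -/
theorem sum_pair (y y' : Fin n) (hy : y ≠ y') :
    ∑ g : Fin n → DihedralGroup 4, chi (g y) * chi (g y') = 0 := by
  have h : ∑ g : Fin n → DihedralGroup 4, chi (g y) * chi (g y')
      = ∑ g : Fin n → DihedralGroup 4, - (chi (g y) * chi (g y')) := by
    rw [← Equiv.sum_comp (Equiv.mulRight (Pi.mulSingle y (DihedralGroup.r 2)))
      (fun g : Fin n → DihedralGroup 4 => chi (g y) * chi (g y'))]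
    apply Finset.sum_congr rfl
    intro g _
    simp only [Equiv.coe_mulRight, Pi.mul_apply, Pi.mulSingle_eq_same]
    rw [Pi.mulSingle_eq_of_ne hy.symm, mul_one, chi_r2]
    ring
  rw [Finset.sum_neg_distrib] at h
  linarith

theorem sum_Fst_sq : ∑ g : Fin n → DihedralGroup 4, Fst g * Fst g
    = n * (Fintype.card (Fin n → DihedralGroup 4) : ℝ) := by
  have e : ∀ g : Fin n → DihedralGroup 4, Fst g * Fst g
      = ∑ y, ∑ y', chi (g y) * chi (g y') := by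
    intro g; unfold Fst; rw [Finset.sum_mul_sum]
  simp only [e]
  rw [Finset.sum_comm]
  have e2 : ∀ y : Fin n, ∑ g : Fin n → DihedralGroup 4, ∑ y', chi (g y) * chi (g y')
      = (Fintype.card (Fin n → DihedralGroup 4) : ℝ) := by
    intro y
    rw [Finset.sum_comm, Finset.sum_eq_single y]
    · simp [chi_sq]
    · intro y' _ hy; exact sum_pair y y' hy.symm
    · intro h; exact absurd (Finset.mem_univ _) h
  simp only [e2, Finset.sum_const, Finset.card_univ, Fintype.card_fin, nsmul_eq_mul]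

theorem card_event (c : ℝ) (hc : 0 < c) :
    (((Finset.univ : Finset (Fin n → DihedralGroup 4)).filter (fun g => c ≤ Fst g)).card : ℝ) * c ^ 2
      ≤ n * (Fintype.card (Fin n → DihedralGroup 4) : ℝ) := by
  rw [← sum_Fst_sq]
  calc (((Finset.univ : Finset (Fin n → DihedralGroup 4)).filter (fun g => c ≤ Fst g)).card : ℝ) * c ^ 2
      = ∑ _g ∈ (Finset.univ : Finset (Fin n → DihedralGroup 4)).filter (fun g => c ≤ Fst g), c ^ 2 := by
        simp
    _ ≤ ∑ g ∈ (Finset.univ : Finset (Fin n → DihedralGroup 4)).filter (fun g => c ≤ Fst g),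
        Fst g * Fst g := by
        apply Finset.sum_le_sum
        intro g hg
        rw [Finset.mem_filter] at hg
        nlinarith [hg.2]
    _ ≤ ∑ g : Fin n → DihedralGroup 4, Fst g * Fst g := by
        apply Finset.sum_le_sum_of_subset_of_nonneg (Finset.filter_subset _ _)
        intro g _ _
        exact mul_self_nonneg _

end Pool.Agent.H85.Mix
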