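import Mathlib
import Pool.Agent.H85.Mix.Event

set_option autoImplicit false
set_option linter.unusedSectionVars false

namespace Pool.Agent.H85.Mix

open Finset
open scoped Classical

set_option maxHeartbeats 4000000

/-- first factor -/
abbrev HH (n : ℕ) : Type := Fin n → DihedralGroup 4
/-- second factor (dummies) -/
abbrev KK (n : ℕ) : Type := (Fin n → Multiplicative (ZMod 2)) × (Fin n → Multiplicative (ZMod 2))

/-- the subgroup `univ × 1` of the dummies -/
noncomputable def LL (n : ℕ) : Finset (KK n) :=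
  (Finset.univ : Finset (Fin n → Multiplicative (ZMod 2))) ×ˢ ({1} : Finset (Fin n → Multiplicative (ZMod 2)))

noncomputable def SS (n : ℕ) : Finset (HH n × KK n) :=
  mkS (pf n (.sr 0)) (pf n (.sr 2)) (pf n (.sr 1)) ({1} : Finset (KK n))

noncomputable def SS' (n : ℕ) : Finset (HH n × KK n) :=
  mkS (pf n (.sr 0)) (pf n (.sr 2)) (pf n (.sr 1)) (LL n)

theorem mem_pf {n : ℕ} (s : DihedralGroup 4) (a : HH n) :
    a ∈ pf n s ↔ ∀ i, a i = 1 ∨ a i = s := by
  unfold pf
  rw [Fintype.mem_piFinset]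
  simp

theorem one_mem_pf {n : ℕ} (s : DihedralGroup 4) : (1 : HH n) ∈ pf n s := by
  rw [mem_pf]; intro i; left; rfl

theorem pf_inter {n : ℕ} (s s' : DihedralGroup 4) (h : s ≠ s') (x : HH n)
    (h1 : x ∈ pf n s) (h2 : x ∈ pf n s') : x = 1 := by
  rw [mem_pf] at h1 h2
  funext i
  rcases h1 i with a | a
  · exact a
  · rcases h2 i with b | b
    · exact b
    · exact absurd (a.symm.trans b) h

theorem ne02 : (DihedralGroup.sr 0 : DihedralGroup 4) ≠ .sr 2 := by decide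
theorem ne01 : (DihedralGroup.sr 0 : DihedralGroup 4) ≠ .sr 1 := by decide
theorem ne21 : (DihedralGroup.sr 2 : DihedralGroup 4) ≠ .sr 1 := by decide

theorem card_Z (n : ℕ) : Fintype.card (Fin n → Multiplicative (ZMod 2)) = 2 ^ n := by
  rw [Fintype.card_fun]
  simp

theorem card_KK (n : ℕ) : Fintype.card (KK n) = 2 ^ n * 2 ^ n := by
  rw [Fintype.card_prod, card_Z]

theorem card_LL (n : ℕ) : (LL n).card = 2 ^ n := by
  unfold LL
  rw [Finset.card_product, Finset.card_univ, card_Z]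
  simp

theorem one_mem_LL (n : ℕ) : (1 : KK n) ∈ LL n := by
  unfold LL
  rw [Finset.mem_product]
  simp

theorem card_SS' (n : ℕ) : ((SS' n).card : ℝ) = 2 * ((2 : ℝ) ^ n) ^ 2 + (2 : ℝ) ^ n - 2 := by
  unfold SS'
  rw [card_mkS _ _ _ _ (one_mem_pf _) (one_mem_pf _) (one_mem_pf _) (one_mem_LL n)
    (pf_inter _ _ ne02) (pf_inter _ _ ne01) (pf_inter _ _ ne21), card_KK, card_LL,
    card_pf _ ne_s0, card_pf _ ne_s1, card_pf _ ne_s2]
  push_cast
  ring

theorem card_SS (n : ℕ) : ((SS n).card : ℝ) = ((2 : ℝ) ^ n) ^ 2 + 3 * (2 : ℝ) ^ n - 3 := by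
  unfold SS
  rw [card_mkS _ _ _ _ (one_mem_pf _) (one_mem_pf _) (one_mem_pf _) (by simp)
    (pf_inter _ _ ne02) (pf_inter _ _ ne01) (pf_inter _ _ ne21), card_KK, Finset.card_singleton,
    card_pf _ ne_s0, card_pf _ ne_s1, card_pf _ ne_s2]
  push_cast
  ring

theorem one_mem_SS' (n : ℕ) : (1 : HH n × KK n) ∈ SS' n := by
  unfold SS' mkS
  simp only [Finset.mem_union, Finset.mem_product]
  left; left; left
  simp

theorem num_A (α : ℝ) (t k : ℕ) (hα0 : 0 ≤ α) (hαt : α * t ≤ ((k : ℝ) + 1) / 16) :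
    (1 + 6 * α) ^ t ≤ (4 : ℝ) ^ (k + 1) := by
  have hk0 : (0 : ℝ) ≤ k := Nat.cast_nonneg k
  have h1 : 1 + 6 * α ≤ Real.exp (6 * α) := by
    have := Real.add_one_le_exp (6 * α); linarith
  calc (1 + 6 * α) ^ t ≤ (Real.exp (6 * α)) ^ t := pow_le_pow_left₀ (by positivity) h1 t
    _ = Real.exp (t * (6 * α)) := by rw [← Real.exp_nat_mul]
    _ ≤ Real.exp (((k + 1 : ℕ) : ℝ) * 1) := by
        apply Real.exp_le_exp.mpr
        push_cast
        nlinarith
    _ = (Real.exp 1) ^ (k + 1) := by rw [Real.exp_nat_mul]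
    _ ≤ (4 : ℝ) ^ (k + 1) := by
        apply pow_le_pow_left₀ (Real.exp_pos 1).le
        have := Real.exp_one_lt_d9
        linarith

theorem num_X (q N r : ℝ) (t k : ℕ) (hN0 : 0 < N) (hN256 : 256 * ((k : ℝ) + 1) ≤ N)
    (hq0 : 0 < q) (hqle : q ≤ 1 / (4 * N ^ 2)) (_hr0 : 0 ≤ r) (hr : r = 2 / N)
    (ht : (t : ℝ) ≤ N * ((k : ℝ) + 1) / 4) :
    (1 + r) * (1 + 4 * q) ^ t - 1 ≤ 1 / 64 := by
  have hr0 : 0 ≤ r := by rw [hr]; positivity
  have hk0 : (0 : ℝ) ≤ k := Nat.cast_nonneg k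
  have ht0 : (0 : ℝ) ≤ t := Nat.cast_nonneg t
  have h1 : 1 + 4 * q ≤ Real.exp (4 * q) := by
    have := Real.add_one_le_exp (4 * q); linarith
  have h2 : (1 + 4 * q) ^ t ≤ Real.exp (1 / 1024) := by
    calc (1 + 4 * q) ^ t ≤ (Real.exp (4 * q)) ^ t := pow_le_pow_left₀ (by positivity) h1 t
      _ = Real.exp (t * (4 * q)) := by rw [← Real.exp_nat_mul]
      _ ≤ Real.exp (1 / 1024) := by
          apply Real.exp_le_exp.mpr
          calc (t : ℝ) * (4 * q) ≤ (N * ((k : ℝ) + 1) / 4) * (4 * (1 / (4 * N ^ 2))) :=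
                mul_le_mul ht (by linarith) (by positivity) (by positivity)
            _ = ((k : ℝ) + 1) / (4 * N) := by field_simp
            _ ≤ 1 / 1024 := by
                rw [div_le_div_iff₀ (by positivity) (by norm_num)]
                linarith
  have h3 : Real.exp (1 / 1024) ≤ 1 / (1 - 1 / 1024) := by
    have h5 := Real.add_one_le_exp (-(1 / 1024 : ℝ))
    rw [Real.exp_neg] at h5
    have h4 := Real.exp_pos (1 / 1024 : ℝ)
    rw [le_div_iff₀ (by norm_num)]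
    have h6 : Real.exp (1 / 1024) * (-(1 / 1024 : ℝ) + 1)
        ≤ Real.exp (1 / 1024) * (Real.exp (1 / 1024))⁻¹ :=
      mul_le_mul_of_nonneg_left h5 h4.le
    rw [mul_inv_cancel₀ h4.ne'] at h6
    linarith
  have h4 : r ≤ 1 / 128 := by
    rw [hr, div_le_div_iff₀ hN0 (by norm_num)]
    linarith
  have h5 : (1 + r) * (1 + 4 * q) ^ t ≤ (1 + 1 / 128) * (1 / (1 - 1 / 1024)) :=
    mul_le_mul (by linarith) (h2.trans h3) (by positivity) (by norm_num)
  have h6 : (1 + 1 / 128 : ℝ) * (1 / (1 - 1 / 1024)) - 1 ≤ 1 / 64 := by norm_num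
  linarith

/-- The lower bound on the mixing time of the larger generating set. -/
theorem tv_lower (k n : ℕ) (hn : n = 4 ^ (k + 4)) (t : ℕ)
    (ht : (t : ℝ) ≤ (2 : ℝ) ^ n * ((k : ℝ) + 1) / 4) :
    1 / 4 < tvDist (SS' n) t := by
  set N : ℝ := (2 : ℝ) ^ n with hN
  have hnk : (n : ℝ) = 64 * (4 : ℝ) ^ (k + 1) := by
    rw [hn]; push_cast; rw [pow_add, pow_add]; norm_num; ring
  have hn0 : 0 < n := by rw [hn]; positivity
  clear hn
  have hn0' : (0 : ℝ) < n := by exact_mod_cast hn0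
  have hNn : (n : ℝ) ≤ N := by
    rw [hN]; exact_mod_cast (Nat.lt_two_pow_self (n := n)).le
  have hk4 : (k : ℝ) + 1 ≤ (4 : ℝ) ^ k := by
    have : k + 1 ≤ 4 ^ k := Nat.lt_pow_self (by norm_num)
    exact_mod_cast this
  have hnk' : 256 * ((k : ℝ) + 1) ≤ n := by
    rw [hnk, pow_succ]; linarith
  have hN256 : 256 * ((k : ℝ) + 1) ≤ N := hnk'.trans hNn
  have hk0 : (0 : ℝ) ≤ k := Nat.cast_nonneg k
  have hN1 : (256 : ℝ) ≤ N := by linarith
  have hN0 : (0 : ℝ) < N := by linarith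
  -- parameters
  set s' : ℝ := ((SS' n).card : ℝ) with hs'
  have hcard : s' = 2 * N ^ 2 + N - 2 := by rw [hs', card_SS' n]
  have hs'pos : 0 < s' := by rw [hcard]; nlinarith
  set q : ℝ := 1 / (2 * s') with hq
  have hq0 : 0 < q := by rw [hq]; positivity
  have hqs : q * (2 * N ^ 2 + N - 2) = 1 / 2 := by
    rw [hq, ← hcard]; field_simp
  set α : ℝ := N * q with hα
  have hLcard : ((LL n).card : ℝ) = N := by rw [card_LL]; push_cast; rfl
  have hKcard : (Fintype.card (KK n) : ℝ) = N ^ 2 := by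
    rw [card_KK]; push_cast; rw [← hN]; ring
  set pI : ℝ := 1 / 2 + q * ((Fintype.card (KK n) : ℝ) - 2 - ((LL n).card : ℝ)) with hpI
  have hpI' : pI = 1 / 2 + q * (N ^ 2 - 2 - N) := by rw [hpI, hKcard, hLcard]
  set qB : ℝ := q * ((LL n).card : ℝ) with hqB
  set γ : ℝ := N * qB with hγ
  have hγ' : γ = N ^ 2 * q := by rw [hγ, hqB, hLcard]; ring
  have hsum : pI + 2 * α + γ = 1 := by
    rw [hpI', hα, hγ']; linear_combination hqs
  have hα0 : 0 ≤ α := by rw [hα]; positivity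
  have hγ0 : 0 ≤ γ := by rw [hγ']; positivity
  have hpI0 : 0 ≤ pI := by
    rw [hpI']
    have : 0 ≤ q * (N ^ 2 - 2 - N) := mul_nonneg hq0.le (by nlinarith)
    linarith
  have hγ1 : γ ≤ 1 := by linarith
  set r : ℝ := 2 / N with hr
  have hr0 : 0 ≤ r := by rw [hr]; positivity
  have hrγ : r * γ = 2 * α := by
    rw [hr, hγ', hα]; field_simp
  -- bounds
  have hqle : q ≤ 1 / (4 * N ^ 2) := by
    rw [hq]
    apply one_div_le_one_div_of_le (by positivity)
    rw [hcard]; linarith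
  have hαle : α ≤ 1 / (4 * N) := by
    rw [hα]
    calc N * q ≤ N * (1 / (4 * N ^ 2)) := mul_le_mul_of_nonneg_left hqle hN0.le
      _ = 1 / (4 * N) := by field_simp
  have ht0 : (0 : ℝ) ≤ t := Nat.cast_nonneg t
  have hαt : α * t ≤ ((k : ℝ) + 1) / 16 := by
    calc α * t ≤ (1 / (4 * N)) * (N * ((k : ℝ) + 1) / 4) :=
          mul_le_mul hαle ht ht0 (by positivity)
      _ = ((k : ℝ) + 1) / 16 := by field_simp; ring
  -- main probability bound
  have hpb := prob_bound (n := n) pI q qB α γ r k hn0 hpI0 hq0.le (by positivity) rfl rfl hsum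
    hα0 hγ1 hr0 hrγ t
  have hA : (1 + 6 * α) ^ t ≤ (4 : ℝ) ^ (k + 1) := num_A α t k hα0 hαt
  have hX : (1 + r) * (1 + 2 * α * r) ^ t - 1 ≤ 1 / 64 := by
    have e1 : 2 * α * r = 4 * q := by rw [hα, hr]; field_simp; ring
    rw [e1]
    exact num_X q N r t k hN0 hN256 hq0 hqle hr0 hr ht
  have hP : (augE n pI q qB)^[t]
      (fun g _ => if Fst g < (n : ℝ) / (2 * 2 ^ k) then (1 : ℝ) else 0) 1 0 ≤ 1 / 4 := by
    refine hpb.trans ?_
    have h1 : 2 * α * t / ((k : ℝ) + 1) ≤ 1 / 8 := by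
      rw [div_le_iff₀ (by positivity)]
      nlinarith
    have h2 : (1 + 6 * α) ^ t / n ≤ 1 / 64 := by
      rw [div_le_iff₀ hn0', hnk]
      linarith
    linarith
  -- translate to the walk
  set c : ℝ := (n : ℝ) / (2 * 2 ^ k) with hc
  have hc0 : 0 < c := by rw [hc]; positivity
  set E : Finset (HH n × KK n) :=
    ((Finset.univ : Finset (HH n)).filter (fun g => c ≤ Fst g)) ×ˢ (Finset.univ : Finset (KK n))
    with hE
  have hne : (SS' n).Nonempty := ⟨1, one_mem_SS' n⟩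
  have hmemE : ∀ x : HH n × KK n, x ∈ E ↔ c ≤ Fst x.1 := by
    intro x
    rw [hE, Finset.mem_product]; simp
  have hev := event_le_tvDist' (SS' n) hne t E
    (fun x => (fun h : HH n => if Fst h < c then (1 : ℝ) else 0) x.1)
    (by
      intro x hx
      exact if_neg (not_lt.mpr ((hmemE x).mp hx)))
    (by
      intro x hx
      exact if_pos (not_le.mp (fun h => hx ((hmemE x).mpr h))))
  have hstep : (stepFn (SS' n))^[t]
      (fun x => (fun h : HH n => if Fst h < c then (1 : ℝ) else 0) x.1) 1 ≤ 1 / 4 := by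
    have h2 := iter_eq_aug (pf n (.sr 0)) (pf n (.sr 2)) (pf n (.sr 1)) (LL n)
      (one_mem_pf _) (one_mem_pf _) (one_mem_pf _) (one_mem_LL n)
      (pf_inter _ _ ne02) (pf_inter _ _ ne01) (pf_inter _ _ ne21) q pI hq hpI t
      (fun h : HH n => if Fst h < c then (1 : ℝ) else 0) 1 0
    unfold SS'
    rw [h2]
    exact hP
  have hcardE : (E.card : ℝ) / (Fintype.card (HH n × KK n) : ℝ) ≤ 1 / 64 := by
    rw [hE, Finset.card_product, Fintype.card_prod, Finset.card_univ]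
    push_cast
    have hK0 : (0 : ℝ) < (Fintype.card (KK n) : ℝ) := by exact_mod_cast Fintype.card_pos
    rw [mul_div_mul_right _ _ hK0.ne']
    have hH0 : (0 : ℝ) < (Fintype.card (HH n) : ℝ) := by exact_mod_cast Fintype.card_pos
    rw [div_le_iff₀ hH0]
    have h1 := card_event (n := n) c hc0
    have h2 : c ^ 2 = 64 * n := by
      rw [hc, div_pow, mul_pow, ← pow_mul, mul_comm k 2, pow_mul]
      norm_num
      have h3 : (n : ℝ) ^ 2 = n * (64 * 4 ^ (k + 1)) := by rw [← hnk]; ring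
      rw [h3, pow_succ]
      field_simp
    rw [h2] at h1
    have h4 : (((Finset.univ : Finset (HH n)).filter (fun g => c ≤ Fst g)).card : ℝ) * 64
        ≤ (Fintype.card (HH n) : ℝ) := by
      have h5 : (((Finset.univ : Finset (HH n)).filter (fun g => c ≤ Fst g)).card : ℝ) * 64 * n
          ≤ (Fintype.card (HH n) : ℝ) * n := by linarith
      exact le_of_mul_le_mul_right h5 hn0'
    linarith
  linarith

end Pool.Agent.H85.Mix
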