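import Mathlib
import Pool.Agent.H85.Mix.LowerEx

set_option autoImplicit false
set_option linter.unusedSectionVars false

namespace Pool.Agent.H85.Mix

open Finset
open scoped Classical

set_option maxHeartbeats 4000000

theorem fac_D4 : ∀ x : DihedralGroup 4,
    ∃ a ∈ ({1, .sr 1} : Finset (DihedralGroup 4)), ∃ b ∈ ({1, .sr 0} : Finset (DihedralGroup 4)),
      ∃ c ∈ ({1, .sr 2} : Finset (DihedralGroup 4)), x = a * b * c := by decide

theorem fac_HH {n : ℕ} (x : HH n) :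
    ∃ a ∈ pf n (.sr 1), ∃ b ∈ pf n (.sr 0), ∃ c ∈ pf n (.sr 2), x = a * b * c := by
  choose a ha b hb c hc hx using fun i => fac_D4 (x i)
  refine ⟨a, ?_, b, ?_, c, ?_, ?_⟩
  · rw [mem_pf]; intro i; simpa using ha i
  · rw [mem_pf]; intro i; simpa using hb i
  · rw [mem_pf]; intro i; simpa using hc i
  · funext i; exact hx i

section mem
variable {H K : Type} [Group H] [Group K] [Fintype K]

theorem mem_mkS (A0 A1 B : Finset H) (L : Finset K) (x : H × K) :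
    x ∈ mkS A0 A1 B L ↔ x.1 = 1 ∨ (x.1 ∈ A0 ∧ x.2 = 1) ∨ (x.1 ∈ A1 ∧ x.2 = 1)
      ∨ (x.1 ∈ B ∧ x.2 ∈ L) := by
  unfold mkS
  simp only [Finset.mem_union, Finset.mem_product, Finset.mem_singleton, Finset.mem_univ, and_true]
  tauto

theorem mkS_D (A0 A1 B : Finset H) (L : Finset K) (k : K) : ((1 : H), k) ∈ mkS A0 A1 B L := by
  rw [mem_mkS]; left; rfl

theorem mkS_A0 (A0 A1 B : Finset H) (L : Finset K) (a : H) (ha : a ∈ A0) :
    (a, (1 : K)) ∈ mkS A0 A1 B L := by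
  rw [mem_mkS]; right; left; exact ⟨ha, rfl⟩

theorem mkS_A1 (A0 A1 B : Finset H) (L : Finset K) (a : H) (ha : a ∈ A1) :
    (a, (1 : K)) ∈ mkS A0 A1 B L := by
  rw [mem_mkS]; right; right; left; exact ⟨ha, rfl⟩

theorem mkS_B (A0 A1 B : Finset H) (L : Finset K) (a : H) (ha : a ∈ B) (k : K) (hk : k ∈ L) :
    (a, k) ∈ mkS A0 A1 B L := by
  rw [mem_mkS]; right; right; right; exact ⟨ha, hk⟩

theorem mkS_inv (A0 A1 B : Finset H) (L : Finset K) (h0 : ∀ a ∈ A0, a⁻¹ ∈ A0)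
    (h1 : ∀ a ∈ A1, a⁻¹ ∈ A1) (hB : ∀ a ∈ B, a⁻¹ ∈ B) (hL : ∀ a ∈ L, a⁻¹ ∈ L) (x : H × K)
    (hx : x ∈ mkS A0 A1 B L) : x⁻¹ ∈ mkS A0 A1 B L := by
  rw [mem_mkS] at hx ⊢
  rcases hx with h | ⟨h, h'⟩ | ⟨h, h'⟩ | ⟨h, h'⟩
  · left; simp [h]
  · right; left; exact ⟨h0 _ h, by simp [h']⟩
  · right; right; left; exact ⟨h1 _ h, by simp [h']⟩
  · right; right; right; exact ⟨hB _ h, hL _ h'⟩

theorem mkS_closure (A0 A1 B : Finset H) (L : Finset K) (hL : (1 : K) ∈ L)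
    (hfac : ∀ x : H, ∃ a ∈ B, ∃ b ∈ A0, ∃ c ∈ A1, x = a * b * c) :
    Subgroup.closure ((mkS A0 A1 B L : Finset (H × K)) : Set (H × K)) = ⊤ := by
  rw [eq_top_iff]
  rintro ⟨h, k⟩ -
  obtain ⟨a, ha, b, hb, c, hc, hx⟩ := hfac h
  have e : ((h, k) : H × K) = (a, 1) * (b, 1) * (c, 1) * (1, k) := by
    simp [hx]
  rw [e]
  have sub : ∀ y : H × K, y ∈ mkS A0 A1 B L →
      y ∈ Subgroup.closure ((mkS A0 A1 B L : Finset (H × K)) : Set (H × K)) := by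
    intro y hy
    exact Subgroup.subset_closure (by exact_mod_cast hy)
  exact Subgroup.mul_mem _ (Subgroup.mul_mem _ (Subgroup.mul_mem _
    (sub _ (mkS_B A0 A1 B L a ha 1 hL)) (sub _ (mkS_A0 A0 A1 B L b hb)))
    (sub _ (mkS_A1 A0 A1 B L c hc))) (sub _ (mkS_D A0 A1 B L k))

theorem mkS_list (A0 A1 B : Finset H) (L : Finset K) (g : H × K) (hg : g ∈ mkS A0 A1 B L) :
    ∃ l : List (H × K), l.length ≤ 2 ∧ (∀ x ∈ l, x ∈ mkS A0 A1 B ({1} : Finset K)) ∧ l.prod = g := by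
  rw [mem_mkS] at hg
  rcases hg with h | ⟨h, h'⟩ | ⟨h, h'⟩ | ⟨h, h'⟩
  · refine ⟨[g], by simp, ?_, by simp⟩
    intro x hx
    rw [List.mem_singleton] at hx
    rw [hx, mem_mkS]; left; exact h
  · refine ⟨[g], by simp, ?_, by simp⟩
    intro x hx
    rw [List.mem_singleton] at hx
    rw [hx, mem_mkS]; right; left; exact ⟨h, h'⟩
  · refine ⟨[g], by simp, ?_, by simp⟩
    intro x hx
    rw [List.mem_singleton] at hx
    rw [hx, mem_mkS]; right; right; left; exact ⟨h, h'⟩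
  · refine ⟨[(g.1, 1), (1, g.2)], by simp, ?_, by ext <;> simp⟩
    intro x hx
    simp only [List.mem_cons, List.not_mem_nil, or_false] at hx
    rcases hx with hx | hx
    · rw [hx, mem_mkS]; right; right; right; exact ⟨h, by simp⟩
    · rw [hx, mem_mkS]; left; rfl

theorem mkS_sub (A0 A1 B : Finset H) (L : Finset K) (hL : (1 : K) ∈ L) :
    mkS A0 A1 B ({1} : Finset K) ⊆ mkS A0 A1 B L := by
  intro x hx
  rw [mem_mkS] at hx ⊢
  rcases hx with h | h | h | ⟨h, h'⟩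
  · left; exact h
  · right; left; exact h
  · right; right; left; exact h
  · right; right; right
    refine ⟨h, ?_⟩
    rw [Finset.mem_singleton] at h'
    rw [h']; exact hL
end mem

theorem pf_inv {n : ℕ} (j : ZMod 4) (a : HH n) (ha : a ∈ pf n (.sr j)) : a⁻¹ ∈ pf n (.sr j) := by
  rw [mem_pf] at ha ⊢
  intro i
  rcases ha i with h | h
  · left; simp [h]
  · right; rw [Pi.inv_apply, h]; rfl

theorem card_G (n : ℕ) : (Fintype.card (HH n × KK n) : ℝ) = ((2 : ℝ) ^ n) ^ 5 := by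
  rw [Fintype.card_prod, card_KK, Fintype.card_fun]
  have : Fintype.card (DihedralGroup 4) = 8 := by rw [DihedralGroup.card]
  rw [this, Fintype.card_fin]
  push_cast
  have h8 : (8 : ℝ) = 2 ^ 3 := by norm_num
  rw [h8, ← pow_mul, ← pow_mul, ← pow_add, ← pow_add]
  congr 1
  ring

/-- The upper bound on the mixing time of the smaller generating set. -/
theorem tmix_upper (n : ℕ) (hn : 4 ≤ n) : tmix (SS n) ≤ 2 ^ 22 * 2 ^ n := by
  obtain ⟨n', rfl⟩ : ∃ n', n = n' + 4 := ⟨n - 4, by omega⟩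
  set M : ℕ := 2 ^ n' with hM
  set N : ℝ := (2 : ℝ) ^ (n' + 4) with hN
  have hMN : (M : ℝ) = N / 16 := by
    rw [hM, hN, pow_add]; push_cast; norm_num
  have hM1 : (1 : ℝ) ≤ M := by
    rw [hM]; push_cast; exact one_le_pow₀ (by norm_num)
  have hN16 : (16 : ℝ) ≤ N := by linarith
  have hN0 : (0 : ℝ) < N := by linarith
  set s : ℝ := ((SS (n' + 4)).card : ℝ) with hs
  have hcard : s = N ^ 2 + 3 * N - 3 := by rw [hs, card_SS]
  have hs0 : 0 < s := by rw [hcard]; nlinarith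
  set q : ℝ := 1 / (2 * s) with hq
  have hq0 : 0 < q := by rw [hq]; positivity
  have hqs : q * s = 1 / 2 := by rw [hq]; field_simp
  have hqlow : 1 / (4 * N ^ 2) ≤ q := by
    rw [hq]
    apply one_div_le_one_div_of_le (by positivity)
    rw [hcard]; nlinarith
  have hqup : q ≤ 1 / (2 * N ^ 2) := by
    rw [hq]
    apply one_div_le_one_div_of_le (by positivity)
    rw [hcard]; nlinarith
  have hKcard : (Fintype.card (KK (n' + 4)) : ℝ) = N ^ 2 := by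
    rw [card_KK]; push_cast; rw [← hN]; ring
  set ρ : ℝ := 1 / 2 + ((Fintype.card (KK (n' + 4)) : ℝ) - 1) * (1 / (2 * s)) with hρ
  have hρ' : ρ = 1 - q * (3 * N - 2) := by
    have e1 : ρ = 1 / 2 + (N ^ 2 - 1) * q := by rw [hρ, hKcard, hq]
    rw [e1]
    rw [hcard] at hqs
    linear_combination hqs
  have hρ1 : ρ ≤ 1 := by
    rw [hρ']
    have : 0 ≤ q * (3 * N - 2) := mul_nonneg hq0.le (by linarith)
    linarith
  have hdef : 1 - ρ ≤ 3 / (2 * N) := by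
    rw [hρ']
    calc 1 - (1 - q * (3 * N - 2)) = q * (3 * N - 2) := by ring
      _ ≤ (1 / (2 * N ^ 2)) * (3 * N) :=
          mul_le_mul hqup (by linarith) (by linarith) (by positivity)
      _ = 3 / (2 * N) := by field_simp
  have hρ0 : 0 ≤ ρ := by
    have : 3 / (2 * N) ≤ 1 := by
      rw [div_le_one (by positivity)]; linarith
    linarith
  have hρM : 1 / 2 ≤ (ρ ^ M) ^ 3 := by
    have h1 : 1 + ((M * 3 : ℕ) : ℝ) * (ρ - 1) ≤ (1 + (ρ - 1)) ^ (M * 3) :=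
      one_add_mul_le_pow (by linarith) _
    have h2 : (1 + (ρ - 1)) ^ (M * 3) = (ρ ^ M) ^ 3 := by
      rw [← pow_mul]; congr 1; ring
    rw [h2] at h1
    push_cast at h1
    have h3 : (M : ℝ) * 3 * (1 - ρ) ≤ (N / 16) * 3 * (3 / (2 * N)) := by
      rw [hMN]
      exact mul_le_mul_of_nonneg_left hdef (by positivity)
    have h4 : (N / 16) * 3 * (3 / (2 * N)) = 9 / 32 := by field_simp; ring
    have h5 : 1 + (M : ℝ) * 3 * (ρ - 1) = 1 - (M : ℝ) * 3 * (1 - ρ) := by ring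
    rw [h5] at h1
    linarith
  -- minorisation
  have hmin : ∀ x : HH (n' + 4) × KK (n' + 4),
      (1 / 2 ^ 21 : ℝ) / (Fintype.card (HH (n' + 4) × KK (n' + 4)) : ℝ)
        ≤ law (SS (n' + 4)) (M + M + M + 1) x := by
    intro x
    have h1 := law_lower (SS (n' + 4)) (pf _ (.sr 1)) (pf _ (.sr 0)) (pf _ (.sr 2))
      (fun k => mkS_D _ _ _ _ k) (fun a ha => mkS_B _ _ _ _ a ha 1 (by simp))
      (fun a ha => mkS_A0 _ _ _ _ a ha) (fun a ha => mkS_A1 _ _ _ _ a ha) fac_HH ρ q hρ hq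
      hρ0 hρ1 M x
    refine le_trans ?_ h1
    rw [card_G, ← hN, hMN]
    have e1 : q * (N / 16 * q * ρ ^ M) ^ 3 = q ^ 4 * (N ^ 3 / 4096) * (ρ ^ M) ^ 3 := by ring
    rw [e1]
    have h2 : (1 / (4 * N ^ 2)) ^ 4 ≤ q ^ 4 := pow_le_pow_left₀ (by positivity) hqlow 4
    calc (1 / 2 ^ 21 : ℝ) / N ^ 5 = (1 / (4 * N ^ 2)) ^ 4 * (N ^ 3 / 4096) * (1 / 2) := by
          field_simp; norm_num
      _ ≤ q ^ 4 * (N ^ 3 / 4096) * (ρ ^ M) ^ 3 := by
          apply mul_le_mul _ hρM (by norm_num) (by positivity)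
          exact mul_le_mul_of_nonneg_right h2 (by positivity)
  have hne : (SS (n' + 4)).Nonempty := ⟨((1 : HH (n' + 4)), 1), mkS_D _ _ _ _ 1⟩
  have h2 := tvDist_iter (SS (n' + 4)) hne (M + M + M + 1) (1 / 2 ^ 21) hmin (2 ^ 22)
  have h3 : (1 - 1 / 2 ^ 21 : ℝ) ^ (2 ^ 22) ≤ 1 / 4 := by
    have h4 : (1 - 1 / 2 ^ 21 : ℝ) ≤ Real.exp (-(1 / 2 ^ 21)) := by
      have := Real.add_one_le_exp (-(1 / 2 ^ 21 : ℝ)); linarith
    have h5 : (1 - 1 / 2 ^ 21 : ℝ) ^ (2 ^ 22) ≤ (Real.exp (-(1 / 2 ^ 21))) ^ (2 ^ 22) :=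
      pow_le_pow_left₀ (by norm_num) h4 _
    rw [← Real.exp_nat_mul] at h5
    have h6 : ((2 ^ 22 : ℕ) : ℝ) * (-(1 / 2 ^ 21)) = -2 := by norm_num
    rw [h6, Real.exp_neg] at h5
    have h7 : (4 : ℝ) ≤ Real.exp 2 := by
      have h8 := Real.add_one_le_exp (1 : ℝ)
      have h9 : Real.exp 2 = Real.exp 1 * Real.exp 1 := by rw [← Real.exp_add]; norm_num
      rw [h9]; nlinarith
    have h10 : (Real.exp 2)⁻¹ ≤ (4 : ℝ)⁻¹ := inv_anti₀ (by norm_num) h7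
    calc (1 - 1 / 2 ^ 21 : ℝ) ^ (2 ^ 22) ≤ (Real.exp 2)⁻¹ := h5
      _ ≤ (4 : ℝ)⁻¹ := h10
      _ = 1 / 4 := by norm_num
  have h4 := tmix_le (SS (n' + 4)) _ (h2.trans h3)
  refine h4.trans ?_
  have h5 : M + M + M + 1 ≤ 2 ^ (n' + 4) := by
    have h6 : 2 ^ (n' + 4) = 16 * M := by rw [hM, pow_add]; ring
    have h7 : 1 ≤ M := Nat.one_le_two_pow
    rw [h6]; omega
  exact Nat.mul_le_mul_left _ h5

theorem exists_mix' (n : ℕ) (hn : 1 ≤ n) : ∃ t, tvDist (SS' n) t ≤ 1 / 4 := by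
  set N : ℝ := (2 : ℝ) ^ n with hN
  have hN1 : (2 : ℝ) ≤ N := by
    calc (2 : ℝ) = 2 ^ 1 := by norm_num
      _ ≤ 2 ^ n := pow_le_pow_right₀ (by norm_num) hn
  set s : ℝ := ((SS' n).card : ℝ) with hs
  have hcard : s = 2 * N ^ 2 + N - 2 := by rw [hs, card_SS']
  have hs0 : 0 < s := by rw [hcard]; nlinarith
  set q : ℝ := 1 / (2 * s) with hq
  have hq0 : 0 < q := by rw [hq]; positivity
  have hqs : q * s = 1 / 2 := by rw [hq]; field_simp
  have hKcard : (Fintype.card (KK n) : ℝ) = N ^ 2 := by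
    rw [card_KK]; push_cast; rw [← hN]; ring
  set ρ : ℝ := 1 / 2 + ((Fintype.card (KK n) : ℝ) - 1) * (1 / (2 * s)) with hρ
  have hρ' : ρ = 1 / 2 + (N ^ 2 - 1) * q := by rw [hρ, hKcard, hq]
  have hρ0 : 0 < ρ := by
    rw [hρ']
    have : 0 ≤ (N ^ 2 - 1) * q := mul_nonneg (by nlinarith) hq0.le
    linarith
  have hρ1 : ρ ≤ 1 := by
    rw [hρ']
    have : (N ^ 2 - 1) * q ≤ s * q := mul_le_mul_of_nonneg_right (by rw [hcard]; nlinarith) hq0.le
    have : s * q = 1 / 2 := by rw [mul_comm]; exact hqs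
    linarith
  have hne : (SS' n).Nonempty := ⟨((1 : HH n), 1), mkS_D _ _ _ _ 1⟩
  have hc0 : (0 : ℝ) < (Fintype.card (HH n × KK n) : ℝ) := by exact_mod_cast Fintype.card_pos
  refine exists_mix (SS' n) hne (1 + 1 + 1 + 1)
    ((Fintype.card (HH n × KK n) : ℝ) * (q * (((1 : ℕ) : ℝ) * q * ρ ^ 1) ^ 3)) ?_ ?_
  · push_cast; positivity
  · intro x
    have h1 := law_lower (SS' n) (pf _ (.sr 1)) (pf _ (.sr 0)) (pf _ (.sr 2))
      (fun k => mkS_D _ _ _ _ k) (fun a ha => mkS_B _ _ _ _ a ha 1 (one_mem_LL n))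
      (fun a ha => mkS_A0 _ _ _ _ a ha) (fun a ha => mkS_A1 _ _ _ _ a ha) fac_HH ρ q hρ hq
      hρ0.le hρ1 1 x
    rw [mul_div_cancel_left₀ _ hc0.ne']
    exact h1

end Pool.Agent.H85.Mix
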