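import Mathlib
import Pool.Agent.H85.Mix.UpperEx

set_option autoImplicit false
set_option linter.unusedSectionVars false

namespace Pool.Agent.H85.Mix

open Finset
open scoped Classical

set_option maxHeartbeats 4000000

/-- size parameter -/
def nn (k : ℕ) : ℕ := 4 ^ (k + 4)

theorem log_four_le : Real.log 4 ≤ 3 / 2 := by
  have h1 : (4 : ℝ) ≤ Real.exp (3 / 2) := by
    have h2 := Real.add_one_le_exp (3 / 4 : ℝ)
    have h3 : Real.exp (3 / 2) = Real.exp (3 / 4) * Real.exp (3 / 4) := by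
      rw [← Real.exp_add]; norm_num
    have h4 := Real.exp_pos (3 / 4 : ℝ)
    have h5 : Real.exp (3 / 2 : ℝ) = Real.exp 1 * Real.exp (1 / 2) := by
      rw [← Real.exp_add]; norm_num
    have h6 := Real.exp_one_gt_d9
    have h7 := Real.add_one_le_exp (1 / 2 : ℝ)
    rw [h5]
    nlinarith
  calc Real.log 4 ≤ Real.log (Real.exp (3 / 2)) := Real.log_le_log (by norm_num) h1
    _ = 3 / 2 := Real.log_exp _

theorem loglog_le (k : ℕ) :
    0 ≤ Real.log (Real.log (Fintype.card (HH (nn k) × KK (nn k)) : ℝ)) ∧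
    Real.log (Real.log (Fintype.card (HH (nn k) × KK (nn k)) : ℝ)) ≤ 12 * ((k : ℝ) + 1) := by
  rw [card_G]
  have hn256 : (256 : ℝ) ≤ (nn k : ℝ) := by
    have : 256 ≤ nn k := by
      unfold nn
      calc 256 = 4 ^ 4 := by norm_num
        _ ≤ 4 ^ (k + 4) := Nat.pow_le_pow_right (by norm_num) (by omega)
    exact_mod_cast this
  have hcast : (nn k : ℝ) = (4 : ℝ) ^ (k + 4) := by unfold nn; push_cast; rfl
  generalize hn : nn k = n at *
  have e1 : Real.log (((2 : ℝ) ^ n) ^ 5) = 5 * ((n : ℝ) * Real.log 2) := by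
    rw [Real.log_pow, Real.log_pow]; norm_num
  rw [e1]
  have hl2 : (1 / 2 : ℝ) ≤ Real.log 2 := by
    have := Real.log_two_gt_d9; linarith
  have hl2' : Real.log 2 ≤ 1 := by
    have := Real.log_two_lt_d9; linarith
  have h1 : (1 : ℝ) ≤ 5 * ((n : ℝ) * Real.log 2) := by nlinarith
  refine ⟨Real.log_nonneg h1, ?_⟩
  have h2 : 5 * ((n : ℝ) * Real.log 2) ≤ (n : ℝ) ^ 2 := by nlinarith
  calc Real.log (5 * ((n : ℝ) * Real.log 2)) ≤ Real.log ((n : ℝ) ^ 2) :=
        Real.log_le_log (by linarith) h2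
    _ = 2 * ((k + 4 : ℕ) * Real.log 4) := by
        rw [hcast, Real.log_pow, Real.log_pow]; norm_num
    _ ≤ 2 * ((k + 4 : ℕ) * (3 / 2)) := by
        have := log_four_le
        have h3 : (0 : ℝ) ≤ ((k + 4 : ℕ) : ℝ) := Nat.cast_nonneg _
        nlinarith
    _ ≤ 12 * ((k : ℝ) + 1) := by
        have h3 : (0 : ℝ) ≤ (k : ℝ) := Nat.cast_nonneg _
        push_cast; linarith

theorem tmix_lower (k : ℕ) : (2 : ℝ) ^ (nn k) * ((k : ℝ) + 1) / 4 ≤ (tmix (SS' (nn k)) : ℝ) := by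
  have hn4 : 4 ≤ nn k := by
    unfold nn
    calc 4 = 4 ^ 1 := by norm_num
      _ ≤ 4 ^ (k + 4) := Nat.pow_le_pow_right (by norm_num) (by omega)
  have hT : (((2 ^ (nn k - 2) * (k + 1) : ℕ)) : ℝ) = (2 : ℝ) ^ (nn k) * ((k : ℝ) + 1) / 4 := by
    push_cast
    have : (2 : ℝ) ^ (nn k) = 2 ^ (nn k - 2) * 2 ^ 2 := by
      rw [← pow_add]; congr 1; omega
    rw [this]; ring
  have h := le_tmix (SS' (nn k)) (2 ^ (nn k - 2) * (k + 1)) (exists_mix' _ (by omega)) (by
    intro t ht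
    refine tv_lower k (nn k) rfl t ?_
    rw [← hT]
    exact_mod_cast ht)
  rw [← hT]
  exact_mod_cast h.le

theorem main :
    ∃ (G : ℕ → Type) (_ : ∀ n, Group (G n)) (_ : ∀ n, Fintype (G n))
      (S S' : ∀ n, Finset (G n)),
      Filter.Tendsto (fun n => Fintype.card (G n)) Filter.atTop Filter.atTop ∧
      (∀ n, (∀ s ∈ S n, s⁻¹ ∈ S n) ∧ Subgroup.closure ((S n : Set (G n))) = ⊤ ∧
        (∀ s ∈ S' n, s⁻¹ ∈ S' n) ∧ Subgroup.closure ((S' n : Set (G n))) = ⊤ ∧
        S n ⊂ S' n ∧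
        ∀ g ∈ S' n, ∃ l : List (G n), l.length ≤ 2 ∧ (∀ x ∈ l, x ∈ S n) ∧ l.prod = g) ∧
      (∀ n, (S' n).card ≤ 2 * (S n).card) ∧
      ∃ c : ℝ, 0 < c ∧ ∀ n,
        c * (tmix (S n) : ℝ) * Real.log (Real.log (Fintype.card (G n) : ℝ))
          ≤ (tmix (S' n) : ℝ) := by
  refine ⟨fun k => HH (nn k) × KK (nn k), fun k => inferInstance, fun k => inferInstance,
    fun k => SS (nn k), fun k => SS' (nn k), ?_, ?_, ?_, ?_⟩
  · -- sizes
    apply Filter.tendsto_atTop_mono (f := fun k : ℕ => k) _ Filter.tendsto_id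
    intro k
    have h1 : k < Fintype.card (HH (nn k) × KK (nn k)) := by
      have h2 : (k : ℝ) < (Fintype.card (HH (nn k) × KK (nn k)) : ℝ) := by
        rw [card_G]
        have h3 : k < nn k := by
          unfold nn
          calc k < k + 4 := by omega
            _ < 4 ^ (k + 4) := Nat.lt_pow_self (by norm_num)
        have h4 : nn k < 2 ^ nn k := Nat.lt_two_pow_self
        have h5 : 2 ^ nn k ≤ (2 ^ nn k) ^ 5 := Nat.le_self_pow (by norm_num) _
        have h6 : k < (2 ^ nn k) ^ 5 := by omega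
        exact_mod_cast h6
      exact_mod_cast h2
    exact h1.le
  · intro k
    have hsub : SS (nn k) ⊆ SS' (nn k) := mkS_sub _ _ _ _ (one_mem_LL _)
    have hsz : ((SS (nn k)).card : ℝ) < ((SS' (nn k)).card : ℝ) := by
      rw [card_SS, card_SS']
      have : (4 : ℝ) ≤ (2 : ℝ) ^ (nn k) := by
        calc (4 : ℝ) = 2 ^ 2 := by norm_num
          _ ≤ 2 ^ (nn k) := by
            apply pow_le_pow_right₀ (by norm_num)
            unfold nn
            calc 2 ≤ 4 ^ 1 := by norm_num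
              _ ≤ 4 ^ (k + 4) := Nat.pow_le_pow_right (by norm_num) (by omega)
      nlinarith
    have hLinv : ∀ a ∈ LL (nn k), a⁻¹ ∈ LL (nn k) := by
      intro a ha
      unfold LL at ha ⊢
      rw [Finset.mem_product] at ha ⊢
      simp only [Finset.mem_univ, true_and, Finset.mem_singleton] at ha ⊢
      rw [Prod.snd_inv, ha, inv_one]
    refine ⟨?_, ?_, ?_, ?_, ?_, ?_⟩
    · exact mkS_inv _ _ _ _ (pf_inv _) (pf_inv _) (pf_inv _) (by
        intro a ha; rw [Finset.mem_singleton] at ha ⊢; rw [ha, inv_one])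
    · exact mkS_closure _ _ _ _ (by simp) fac_HH
    · exact mkS_inv _ _ _ _ (pf_inv _) (pf_inv _) (pf_inv _) hLinv
    · exact mkS_closure _ _ _ _ (one_mem_LL _) fac_HH
    · refine (Finset.ssubset_iff_subset_ne).mpr ⟨hsub, ?_⟩
      intro h
      change SS (nn k) = SS' (nn k) at h
      rw [h] at hsz
      exact lt_irrefl _ hsz
    · intro g hg
      exact mkS_list _ _ _ _ g hg
  · intro k
    have h : ((SS' (nn k)).card : ℝ) ≤ 2 * ((SS (nn k)).card : ℝ) := by
      rw [card_SS, card_SS']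
      have : (1 : ℝ) ≤ (2 : ℝ) ^ (nn k) := one_le_pow₀ (by norm_num)
      linarith
    exact_mod_cast h
  · refine ⟨1 / (48 * 2 ^ 22), by positivity, ?_⟩
    intro k
    have h1 : (tmix (SS (nn k)) : ℝ) ≤ 2 ^ 22 * (2 : ℝ) ^ (nn k) := by
      have hn4 : 4 ≤ nn k := by
        unfold nn
        calc 4 = 4 ^ 1 := by norm_num
          _ ≤ 4 ^ (k + 4) := Nat.pow_le_pow_right (by norm_num) (by omega)
      exact_mod_cast tmix_upper (nn k) hn4
    obtain ⟨h2, h3⟩ := loglog_le k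
    have h4 := tmix_lower k
    have h5 : (tmix (SS (nn k)) : ℝ)
        * Real.log (Real.log (Fintype.card (HH (nn k) × KK (nn k)) : ℝ))
        ≤ (2 ^ 22 * (2 : ℝ) ^ (nn k)) * (12 * ((k : ℝ) + 1)) :=
      mul_le_mul h1 h3 h2 (by positivity)
    calc 1 / (48 * 2 ^ 22) * (tmix (SS (nn k)) : ℝ)
          * Real.log (Real.log (Fintype.card (HH (nn k) × KK (nn k)) : ℝ))
        = 1 / (48 * 2 ^ 22) * ((tmix (SS (nn k)) : ℝ)
          * Real.log (Real.log (Fintype.card (HH (nn k) × KK (nn k)) : ℝ))) := by ring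
      _ ≤ 1 / (48 * 2 ^ 22) * ((2 ^ 22 * (2 : ℝ) ^ (nn k)) * (12 * ((k : ℝ) + 1))) :=
          mul_le_mul_of_nonneg_left h5 (by positivity)
      _ = (2 : ℝ) ^ (nn k) * ((k : ℝ) + 1) / 4 := by ring
      _ ≤ _ := h4

end Pool.Agent.H85.Mix
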